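import Pool.Agent.R205.PC.Core

/-!
# Towers with random heights: combinatorics
-/

set_option autoImplicit false

open MeasureTheory Filter Topology Set Finset
open scoped ENNReal ComplexConjugate

namespace Pool.Agent.R205.TC

/-- position (column, level) at the time `p` in the tower with heights `η` -/
def pos (η : ℕ → ℕ) : ℕ → ℕ × ℕ
  | 0 => (0, 0)
  | p + 1 => if (pos η p).2 + 1 < η (pos η p).1 then ((pos η p).1, (pos η p).2 + 1) else ((pos η p).1 + 1, 0)

variable (η η' : ℕ → ℕ)

lemma pos_succ (p : ℕ) : pos η (p + 1) =
    if (pos η p).2 + 1 < η (pos η p).1 then ((pos η p).1, (pos η p).2 + 1) else ((pos η p).1 + 1, 0) := rfl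

lemma col_step (p : ℕ) : (pos η p).1 ≤ (pos η (p + 1)).1 ∧ (pos η (p + 1)).1 ≤ (pos η p).1 + 1 := by
  rw [pos_succ]
  split_ifs <;> simp

lemma col_mono {p p' : ℕ} (h : p ≤ p') : (pos η p).1 ≤ (pos η p').1 := by
  induction p', h using Nat.le_induction with
  | base => exact le_rfl
  | succ p' _ ih => exact ih.trans (col_step η p').1

lemma col_le (p : ℕ) : (pos η p).1 ≤ p := by
  induction p with
  | zero => exact le_rfl
  | succ p ih => have := (col_step η p).2; omega

lemma lev_lt (h1 : ∀ s, 1 ≤ η s) (p : ℕ) : (pos η p).2 < η (pos η p).1 := by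
  induction p with
  | zero => exact h1 0
  | succ p ih =>
    rw [pos_succ]
    split_ifs with h
    · exact h
    · exact h1 _

/-- dependence on the heights of the columns before the current one -/
lemma pos_agree (p : ℕ) (h1 : ∀ s, s < (pos η p).1 → η' s = η s) (h2 : η (pos η p).1 ≤ η' (pos η p).1) :
    pos η' p = pos η p := by
  induction p with
  | zero => rfl
  | succ p ih =>
    by_cases h : (pos η p).2 + 1 < η (pos η p).1
    · have e1 : pos η (p + 1) = ((pos η p).1, (pos η p).2 + 1) := by rw [pos_succ, if_pos h]
      rw [e1] at h1 h2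
      simp only at h1 h2
      have ih' := ih h1 h2
      rw [e1, pos_succ, ih', if_pos (h.trans_le h2)]
    · have e1 : pos η (p + 1) = ((pos η p).1 + 1, 0) := by rw [pos_succ, if_neg h]
      rw [e1] at h1 h2
      simp only at h1 h2
      have e2 : η' (pos η p).1 = η (pos η p).1 := h1 _ (by omega)
      have ih' := ih (fun s hs => h1 s (by omega)) e2.ge
      rw [e1, pos_succ, ih', e2, if_neg h]

lemma pos_agree' (p : ℕ) (h1 : ∀ s, s ≤ (pos η p).1 → η' s = η s) : pos η' p = pos η p :=
  pos_agree η η' p (fun s hs => h1 s hs.le) (h1 _ le_rfl).ge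

/-- raising the column `t` by one delays everything after it by one -/
lemma pos_shift (hη : ∀ s, 1 ≤ η s) (t : ℕ) (ht : η' t = η t + 1) (p : ℕ) (h1 : ∀ s, s ≤ p + 1 → s ≠ t → η' s = η s)
    (h2 : t < (pos η p).1) : pos η' (p + 1) = pos η p := by
  induction p with
  | zero => exact absurd h2 (by simp [pos])
  | succ p ih =>
    by_cases h3 : t < (pos η p).1
    · have ih' := ih (fun s hs hst => h1 s (by omega) hst) h3
      rw [pos_succ η' (p + 1), ih', pos_succ η p, h1 (pos η p).1 (by have := col_le η p; omega) (by omega)]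
    · have h4 := (col_step η p).2
      have h5 : (pos η p).1 = t := by omega
      have h6 : ¬ (pos η p).2 + 1 < η (pos η p).1 := by
        intro h
        rw [pos_succ, if_pos h] at h2
        simp only at h2
        omega
      have h7 := lev_lt η hη p
      have h8 : pos η' p = pos η p := by
        refine pos_agree η η' p (fun s hs => h1 s ?_ (by omega)) ?_
        · have := col_le η p
          omega
        · rw [h5, ht]; omega
      have e1 : pos η (p + 1) = (t + 1, 0) := by rw [pos_succ, if_neg h6, h5]
      have e2 : pos η' (p + 1) = (t, (pos η p).2 + 1) := by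
        rw [pos_succ, h8, h5, if_pos]
        rw [h5] at h6 h7
        omega
      rw [e1, pos_succ, e2]
      simp only
      rw [if_neg]
      rw [h5] at h6 h7
      omega

lemma lev_add (p j : ℕ) (h : (pos η (p + j)).1 = (pos η p).1) : (pos η (p + j)).2 = (pos η p).2 + j := by
  induction j with
  | zero => rfl
  | succ j ih =>
    have h1 := col_step η (p + j)
    have h2 := col_mono η (show p ≤ p + j by omega)
    rw [← add_assoc] at h ⊢
    have h3 : (pos η (p + j)).1 = (pos η p).1 := by omega
    have ih' := ih h3
    rw [pos_succ] at h ⊢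
    split_ifs at h ⊢ with h4
    · simp only
      omega
    · simp only at h
      omega

lemma col_speed (hη : ∀ s, 1 ≤ η s) (b : ℕ) (hb : ∀ s, η s ≤ b) (p r : ℕ) :
    (pos η p).1 + r ≤ (pos η (p + b * r)).1 := by
  induction r with
  | zero => simp
  | succ r ih =>
    have h1 : (pos η (p + b * r)).1 + 1 ≤ (pos η (p + b * r + b)).1 := by
      by_contra hcon
      have h2 := col_mono η (show p + b * r ≤ p + b * r + b by omega)
      have h3 : (pos η (p + b * r + b)).1 = (pos η (p + b * r)).1 := by omega
      have h4 := lev_add η _ _ h3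
      have h5 := lev_lt η hη (p + b * r + b)
      have h6 := hb (pos η (p + b * r + b)).1
      omega
    have e1 : p + b * (r + 1) = p + b * r + b := by ring
    rw [e1]
    omega

section Coin

/-- heights with coins -/
def hgt (e lam : ℕ → ℕ) (θ : ℕ → Bool) (s : ℕ) : ℕ := e s + (θ (lam s)).toNat

lemma meas_pos (e lam : ℕ → ℕ) (p : ℕ) : Measurable (fun θ : ℕ → Bool => pos (hgt e lam θ) p) := by
  induction p with
  | zero => exact measurable_const
  | succ p ih =>
    have h1 : Measurable (fun w : (ℕ → Bool) × (ℕ × ℕ) =>
        (if w.2.2 + 1 < hgt e lam w.1 w.2.1 then (w.2.1, w.2.2 + 1) else (w.2.1 + 1, 0) : ℕ × ℕ)) := by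
      refine measurable_from_prod_countable_left fun z => ?_
      have h2 : Measurable (fun θ : ℕ → Bool => hgt e lam θ z.1) := by
        unfold hgt
        have h3 : Measurable (fun b : Bool => e z.1 + b.toNat) := Measurable.of_discrete
        exact h3.comp (measurable_pi_apply _)
      have h4 : Measurable (fun k : ℕ => (if z.2 + 1 < k then (z.1, z.2 + 1) else (z.1 + 1, 0) : ℕ × ℕ)) :=
        Measurable.of_discrete
      exact h4.comp h2
    exact h1.comp (measurable_id.prodMk ih)

end Coin

end Pool.Agent.R205.TC
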