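import Pool.Agent.R205.TC.A1

/-!
# Towers with random heights: decay of correlations
-/

set_option autoImplicit false

open MeasureTheory Filter Topology Set Finset
open scoped ENNReal ComplexConjugate

namespace Pool.Agent.R205.TC

open Pool.Agent.R205.PC (integral_resample)

/-- the fair coin -/
noncomputable def coin : Measure Bool := (2⁻¹ : ℝ≥0∞) • (Measure.dirac false + Measure.dirac true)

instance : IsProbabilityMeasure coin := by
  refine ⟨?_⟩
  unfold coin
  rw [Measure.smul_apply, Measure.add_apply, measure_univ, measure_univ, smul_eq_mul, one_add_one_eq_two]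
  exact ENNReal.inv_mul_cancel (by norm_num) (by norm_num)

lemma integral_coin (f : Bool → ℂ) : ∫ κ, f κ ∂coin = (f false + f true) / 2 := by
  unfold coin
  rw [integral_smul_measure, integral_add_measure (Integrable.of_finite) (Integrable.of_finite), integral_dirac,
    integral_dirac]
  simp
  ring

/-- coins for all labels -/
noncomputable def CP : Measure (ℕ → Bool) := Measure.infinitePi (fun _ : ℕ => coin)

instance : IsProbabilityMeasure CP := by unfold CP; infer_instance

lemma orth_sum {Ω : Type*} [MeasurableSpace Ω] (Q : Measure Ω) [IsProbabilityMeasure Q] {ι : Type*} [DecidableEq ι] (B : Finset ι)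
    (Ψ : ι → Ω → ℂ) (hΨ : ∀ m, Measurable (Ψ m)) (C : ℝ) (hC : ∀ m ω, ‖Ψ m ω‖ ≤ C)
    (horth : ∀ m ∈ B, ∀ m' ∈ B, m ≠ m' → ∫ ω, Ψ m ω * conj (Ψ m' ω) ∂Q = 0) :
    ∫ ω, ‖∑ m ∈ B, Ψ m ω‖ ^ 2 ∂Q = ∑ m ∈ B, ∫ ω, ‖Ψ m ω‖ ^ 2 ∂Q := by
  by_cases hne : Nonempty ι
  swap
  · have : B = ∅ := by
      rw [Finset.eq_empty_iff_forall_notMem]
      intro m _
      exact hne ⟨m⟩
    subst this
    simp
  obtain ⟨m0⟩ := hne
  have hC0 : 0 ≤ C := (norm_nonneg _).trans (hC m0 (Classical.choice (nonempty_of_isProbabilityMeasure Q)))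
  have hint : ∀ n n', Integrable (fun ω => Ψ n ω * conj (Ψ n' ω)) Q := by
    intro n n'
    refine Integrable.of_bound ((hΨ n).mul ((Complex.continuous_conj.measurable).comp (hΨ n'))).aestronglyMeasurable (C * C) ?_
    filter_upwards with ω
    rw [norm_mul, Complex.norm_conj]
    exact mul_le_mul (hC n ω) (hC n' ω) (norm_nonneg _) hC0
  have key : ((∫ ω, ‖∑ n ∈ B, Ψ n ω‖ ^ 2 ∂Q : ℝ) : ℂ) = ((∑ m ∈ B, ∫ ω, ‖Ψ m ω‖ ^ 2 ∂Q : ℝ) : ℂ) := by
    rw [← integral_complex_ofReal]
    have h1 : ∀ ω, (((‖∑ n ∈ B, Ψ n ω‖ ^ 2 : ℝ)) : ℂ) = ∑ m ∈ B, ∑ m' ∈ B, Ψ m ω * conj (Ψ m' ω) := by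
      intro ω
      rw [Complex.ofReal_pow, ← Complex.mul_conj', map_sum, Finset.sum_mul_sum]
    simp only [h1]
    rw [integral_finsetSum _ fun m _ => integrable_finsetSum _ fun m' _ => hint m m']
    push_cast
    refine Finset.sum_congr rfl fun m hm => ?_
    rw [integral_finsetSum _ fun m' _ => hint m m', Finset.sum_eq_single_of_mem m hm]
    · rw [← integral_complex_ofReal]
      refine integral_congr_ae (Eventually.of_forall fun ω => ?_)
      simp only
      rw [Complex.mul_conj', Complex.ofReal_pow]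
    · intro m' hm' hne
      exact horth m hm m' hm' (Ne.symm hne)
  exact_mod_cast key

/-- heights and labels -/
structure Data (e lam : ℕ → ℕ) (b W R : ℕ) : Prop where
  pos : ∀ s, 1 ≤ e s
  bd : ∀ s, e s + 1 ≤ b
  fresh : ∀ a, a + W ≤ R → ∃ t, a ≤ t ∧ t < a + W ∧ ∀ s, s ≤ R → s ≠ t → lam s ≠ lam t

lemma hgt_pos {e lam : ℕ → ℕ} {b W R : ℕ} (h : Data e lam b W R) (θ : ℕ → Bool) (s : ℕ) : 1 ≤ hgt e lam θ s := by
  have := h.pos s
  unfold hgt
  omega

lemma hgt_le {e lam : ℕ → ℕ} {b W R : ℕ} (h : Data e lam b W R) (θ : ℕ → Bool) (s : ℕ) : hgt e lam θ s ≤ b := by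
  have h1 := h.bd s
  have h2 : (θ (lam s)).toNat ≤ 1 := Bool.toNat_le _
  unfold hgt
  omega

theorem corr {e lam : ℕ → ℕ} {b W R : ℕ} (h : Data e lam b W R) (hW : 0 < W) (P0 q Q : ℕ) (hQ : 0 < Q)
    (hq : P0 + b * ((Q + 1) * W) ≤ q) (hqR : q + 1 ≤ R) (C : ℝ) (hC : 0 ≤ C) (Φ : (ℕ → Bool) → ℂ) (hΦm : Measurable Φ)
    (hΦb : ∀ θ, ‖Φ θ‖ ≤ C)
    (hΦ : ∀ θ θ', (∀ s, s ≤ (pos (hgt e lam θ) P0).1 → hgt e lam θ' s = hgt e lam θ s) → Φ θ' = Φ θ)
    (g : ℕ × ℕ → ℂ) (hg : ∀ z, ‖g z‖ ≤ C) :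
    ‖∫ θ, Φ θ * (g (pos (hgt e lam θ) (q + 1)) - g (pos (hgt e lam θ) q)) ∂CP‖ ≤ 2 * C ^ 2 / Real.sqrt Q := by
  classical
  have hb : 1 ≤ b := by have := h.bd 0; have := h.pos 0; omega
  -- the fresh times
  have hch : ∀ i, ∃ t, i * W + W ≤ R → i * W ≤ t ∧ t < i * W + W ∧ ∀ s, s ≤ R → s ≠ t → lam s ≠ lam t := by
    intro i
    by_cases hi : i * W + W ≤ R
    · obtain ⟨t, ht⟩ := h.fresh (i * W) hi
      exact ⟨t, fun _ => ht⟩
    · exact ⟨0, fun h' => absurd h' hi⟩
  choose t ht using hch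
  set σ : (ℕ → Bool) → ℕ := fun θ => (pos (hgt e lam θ) P0).1 with hσ
  have hσP : ∀ θ, σ θ ≤ P0 := fun θ => col_le _ _
  set I : ℕ := P0 / W + Q + 1 with hI
  have hIR : ∀ i, i < I → i * W + W ≤ R := by
    intro i hi
    have h1 : i + 1 ≤ P0 / W + (Q + 1) := by omega
    have h2 : (i + 1) * W ≤ (P0 / W + (Q + 1)) * W := Nat.mul_le_mul_right _ h1
    have h3 : P0 / W * W ≤ P0 := Nat.div_mul_le_self _ _
    have h4 : (Q + 1) * W ≤ b * ((Q + 1) * W) := Nat.le_mul_of_pos_left _ hb
    nlinarith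
  set cond : ℕ → (ℕ → Bool) → Prop := fun i θ => σ θ / W + 1 ≤ i ∧ i ≤ σ θ / W + Q with hcond
  have hpos : ∀ i < I, ∀ θ κ, cond i θ →
      pos (hgt e lam (Function.update θ (lam (t i)) κ)) P0 = pos (hgt e lam θ) P0 := by
    intro i hi θ κ hc
    obtain ⟨t1, t2, t3⟩ := ht i (hIR i hi)
    refine pos_agree' _ _ P0 fun s hs => ?_
    have h1 : σ θ < i * W := by
      have h2 : σ θ < (σ θ / W + 1) * W := by
        rw [mul_comm]
        exact Nat.lt_mul_div_succ _ hW
      exact h2.trans_le (Nat.mul_le_mul_right _ hc.1)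
    have h2 : s ≤ σ θ := hs
    have h3 : lam s ≠ lam (t i) := t3 s (by have := hσP θ; omega) (by omega)
    unfold hgt
    rw [Function.update_of_ne h3]
  have hcinv : ∀ i < I, ∀ θ κ, cond i (Function.update θ (lam (t i)) κ) ↔ cond i θ := by
    intro i hi θ κ
    constructor
    · intro hc
      have h1 := hpos i hi _ (θ (lam (t i))) hc
      rw [Function.update_idem, Function.update_eq_self] at h1
      simp only [hcond, hσ] at hc ⊢
      rw [h1]
      exact hc
    · intro hc
      have h1 := hpos i hi θ κ hc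
      simp only [hcond, hσ] at hc ⊢
      rw [h1]
      exact hc
  set w : ℕ → (ℕ → Bool) → ℂ := fun i θ => if cond i θ then 1 else 0 with hw
  set χ : ℕ → (ℕ → Bool) → ℂ := fun i θ => if θ (lam (t i)) then -1 else 1 with hχ
  have hσm : Measurable σ := measurable_fst.comp (meas_pos e lam P0)
  have hwm : ∀ i, Measurable (w i) := by
    intro i
    have h1 : Measurable (fun s : ℕ => if s / W + 1 ≤ i ∧ i ≤ s / W + Q then (1 : ℂ) else 0) := Measurable.of_discrete
    exact h1.comp hσm
  have hχm : ∀ i, Measurable (χ i) := by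
    intro i
    have h1 : Measurable (fun x : Bool => if x then (-1 : ℂ) else 1) := Measurable.of_discrete
    exact h1.comp (measurable_pi_apply _)
  have hgm : ∀ p, Measurable (fun θ : ℕ → Bool => g (pos (hgt e lam θ) p)) := fun p =>
    (Measurable.of_discrete (f := g)).comp (meas_pos e lam p)
  have hwb : ∀ i θ, ‖w i θ‖ ≤ 1 := by
    intro i θ
    simp only [hw]
    split_ifs <;> simp
  have hχb : ∀ i θ, ‖χ i θ‖ ≤ 1 := by
    intro i θ
    simp only [hχ]
    split_ifs <;> simp
  -- the identity for one coin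
  have hone : ∀ i < I, ∫ θ, w i θ * Φ θ * ((g (pos (hgt e lam θ) (q + 1)) - g (pos (hgt e lam θ) q)) -
      χ i θ * (g (pos (hgt e lam θ) (q + 1)) + g (pos (hgt e lam θ) q))) ∂CP = 0 := by
    intro i hi
    have h1 := integral_resample coin (lam (t i)) (fun θ => w i θ * Φ θ * ((g (pos (hgt e lam θ) (q + 1)) -
      g (pos (hgt e lam θ) q)) - χ i θ * (g (pos (hgt e lam θ) (q + 1)) + g (pos (hgt e lam θ) q)))) (fun _ => 1)
      (((hwm i).mul hΦm).mul (((hgm _).sub (hgm _)).sub ((hχm i).mul ((hgm _).add (hgm _))))) measurable_const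
      (max (C * (C + C + (C + C))) 1) (fun θ => ?_) (fun _ => by simp) (fun _ _ => rfl) (fun θ => ?_)
    · simpa [CP] using h1
    · refine le_trans ?_ (le_max_left _ _)
      rw [norm_mul, norm_mul]
      have h2 : ‖w i θ‖ * ‖Φ θ‖ ≤ C := by
        calc ‖w i θ‖ * ‖Φ θ‖ ≤ 1 * C := mul_le_mul (hwb i θ) (hΦb θ) (norm_nonneg _) zero_le_one
          _ = C := one_mul C
      refine mul_le_mul h2 ?_ (norm_nonneg _) hC
      refine (norm_sub_le _ _).trans (add_le_add ((norm_sub_le _ _).trans (add_le_add (hg _) (hg _))) ?_)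
      rw [norm_mul]
      calc ‖χ i θ‖ * ‖g (pos (hgt e lam θ) (q + 1)) + g (pos (hgt e lam θ) q)‖ ≤ 1 * (C + C) :=
            mul_le_mul (hχb i θ) ((norm_add_le _ _).trans (add_le_add (hg _) (hg _))) (norm_nonneg _) zero_le_one
        _ = C + C := one_mul _
    · rw [integral_coin]
      by_cases hc : cond i θ
      · have hc0 : w i (Function.update θ (lam (t i)) false) = 1 := by
          simp only [hw]; rw [if_pos ((hcinv i hi θ false).2 hc)]
        have hc1 : w i (Function.update θ (lam (t i)) true) = 1 := by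
          simp only [hw]; rw [if_pos ((hcinv i hi θ true).2 hc)]
        obtain ⟨t1, t2, t3⟩ := ht i (hIR i hi)
        have h1 : σ θ < i * W := by
          have h2 : σ θ < (σ θ / W + 1) * W := by
            rw [mul_comm]
            exact Nat.lt_mul_div_succ _ hW
          exact h2.trans_le (Nat.mul_le_mul_right _ hc.1)
        have hΦi : ∀ κ, Φ (Function.update θ (lam (t i)) κ) = Φ θ := by
          intro κ
          refine hΦ θ _ fun s hs => ?_
          have h2 : s ≤ σ θ := hs
          have h3 : lam s ≠ lam (t i) := t3 s (by have := hσP θ; omega) (by omega)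
          unfold hgt
          rw [Function.update_of_ne h3]
        have hχ0 : χ i (Function.update θ (lam (t i)) false) = 1 := by
          simp [hχ]
        have hχ1 : χ i (Function.update θ (lam (t i)) true) = -1 := by
          simp [hχ]
        have hti : t i < (pos (hgt e lam (Function.update θ (lam (t i)) false)) q).1 := by
          have e1 := hpos i hi θ false hc
          have e2 := col_speed _ (hgt_pos h (Function.update θ (lam (t i)) false)) b (hgt_le h _) P0 ((Q + 1) * W)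
          rw [e1] at e2
          have e3 := col_mono (hgt e lam (Function.update θ (lam (t i)) false)) hq
          have e4 : (i + 1) * W ≤ (σ θ / W + (Q + 1)) * W := Nat.mul_le_mul_right _ (by have := hc.2; omega)
          have e5 : σ θ / W * W ≤ σ θ := Nat.div_mul_le_self _ _
          have e6 : (pos (hgt e lam θ) P0).1 = σ θ := rfl
          nlinarith
        have hsh := pos_shift (hgt e lam (Function.update θ (lam (t i)) false))
          (hgt e lam (Function.update θ (lam (t i)) true)) (hgt_pos h _) (t i) (by unfold hgt; simp) q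
          (fun s hs hst => by
            have h3 : lam s ≠ lam (t i) := t3 s (by omega) hst
            unfold hgt
            rw [Function.update_of_ne h3, Function.update_of_ne h3]) hti
        rw [hc0, hc1, hΦi, hΦi, hχ0, hχ1, hsh]
        ring
      · have hc0 : w i (Function.update θ (lam (t i)) false) = 0 := by
          simp only [hw]; rw [if_neg (fun h' => hc ((hcinv i hi θ false).1 h'))]
        have hc1 : w i (Function.update θ (lam (t i)) true) = 0 := by
          simp only [hw]; rw [if_neg (fun h' => hc ((hcinv i hi θ true).1 h'))]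
        rw [hc0, hc1]
        simp
  -- orthogonality of the coins
  have htne : ∀ i < I, ∀ i' < I, i ≠ i' → lam (t i) ≠ lam (t i') := by
    intro i hi i' hi' hne
    obtain ⟨a1, a2, a3⟩ := ht i (hIR i hi)
    obtain ⟨b1, b2, b3⟩ := ht i' (hIR i' hi')
    refine b3 (t i) (by have := hIR i hi; omega) ?_
    intro heq
    rcases lt_or_gt_of_ne hne with hlt | hlt
    · have : (i + 1) * W ≤ i' * W := Nat.mul_le_mul_right _ hlt
      nlinarith
    · have : (i' + 1) * W ≤ i * W := Nat.mul_le_mul_right _ hlt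
      nlinarith
  have horth : ∀ i ∈ Finset.range I, ∀ i' ∈ Finset.range I, i ≠ i' →
      ∫ θ, (w i θ * χ i θ) * conj (w i' θ * χ i' θ) ∂CP = 0 := by
    intro i hi i' hi' hne
    rw [Finset.mem_range] at hi hi'
    have h1 := integral_resample coin (lam (t i')) (fun θ => (w i θ * χ i θ) * conj (w i' θ * χ i' θ)) (fun _ => 1)
      (((hwm i).mul (hχm i)).mul (Complex.continuous_conj.measurable.comp ((hwm i').mul (hχm i')))) measurable_const 1
      (fun θ => ?_) (fun _ => by simp) (fun _ _ => rfl) (fun θ => ?_)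
    · simpa [CP] using h1
    · rw [norm_mul, Complex.norm_conj, norm_mul, norm_mul]
      have e1 : ‖w i θ‖ * ‖χ i θ‖ ≤ 1 := mul_le_one₀ (hwb _ _) (norm_nonneg _) (hχb _ _)
      have e2 : ‖w i' θ‖ * ‖χ i' θ‖ ≤ 1 := mul_le_one₀ (hwb _ _) (norm_nonneg _) (hχb _ _)
      exact mul_le_one₀ e1 (by positivity) e2
    · rw [integral_coin]
      by_cases hc : cond i' θ
      · have e0 : ∀ κ, w i (Function.update θ (lam (t i')) κ) = w i θ := by
          intro κ
          have := hpos i' hi' θ κ hc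
          simp only [hw, hcond, hσ]
          rw [this]
        have e1 : ∀ κ, χ i (Function.update θ (lam (t i')) κ) = χ i θ := by
          intro κ
          simp only [hχ]
          rw [Function.update_of_ne (htne i hi i' hi' hne)]
        have e2 : ∀ κ, w i' (Function.update θ (lam (t i')) κ) = 1 := by
          intro κ
          simp only [hw]
          rw [if_pos ((hcinv i' hi' θ κ).2 hc)]
        have hχ0 : χ i' (Function.update θ (lam (t i')) false) = 1 := by
          simp [hχ]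
        have hχ1 : χ i' (Function.update θ (lam (t i')) true) = -1 := by
          simp [hχ]
        rw [e0, e0, e1, e1, e2, e2, hχ0, hχ1]
        simp
      · have e2 : ∀ κ, w i' (Function.update θ (lam (t i')) κ) = 0 := by
          intro κ
          simp only [hw]
          rw [if_neg (fun h' => hc ((hcinv i' hi' θ κ).1 h'))]
        rw [e2, e2]
        simp
  have hcount : ∀ θ, ∑ i ∈ Finset.range I, w i θ = Q := by
    intro θ
    have h1 : ∑ i ∈ Finset.range I, w i θ = ∑ i ∈ (Finset.range I).filter (fun i => cond i θ), (1 : ℂ) := by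
      rw [Finset.sum_filter]
    have h2 : (Finset.range I).filter (fun i => cond i θ) = Finset.Icc (σ θ / W + 1) (σ θ / W + Q) := by
      ext i
      simp only [Finset.mem_filter, Finset.mem_range, Finset.mem_Icc, hcond]
      constructor
      · exact fun h => h.2
      · intro h
        refine ⟨?_, h⟩
        have : σ θ / W ≤ P0 / W := Nat.div_le_div_right (hσP θ)
        omega
    rw [h1, h2, Finset.sum_const, Nat.card_Icc, nsmul_eq_mul, mul_one]
    congr 1
    omega
  have hcount2 : ∀ θ, ∑ i ∈ Finset.range I, ‖w i θ * χ i θ‖ ^ 2 = Q := by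
    intro θ
    have h1 : ∀ i ∈ Finset.range I, ‖w i θ * χ i θ‖ ^ 2 = (w i θ).re := by
      intro i _
      simp only [hw, hχ]
      split_ifs <;> simp
    rw [Finset.sum_congr rfl h1, ← Complex.re_sum, hcount θ]
    simp
  set X : (ℕ → Bool) → ℂ := fun θ => ∑ i ∈ Finset.range I, w i θ * χ i θ with hX
  have hXm : Measurable X := Finset.measurable_fun_sum _ fun i _ => (hwm i).mul (hχm i)
  have hwχi : ∀ i, Integrable (fun θ => ‖w i θ * χ i θ‖ ^ 2) CP := fun i =>
    Integrable.of_bound (((hwm i).mul (hχm i)).norm.pow_const 2).aestronglyMeasurable 1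
      (Eventually.of_forall fun θ => by
        rw [Real.norm_eq_abs, abs_of_nonneg (by positivity), norm_mul]
        exact pow_le_one₀ (by positivity) (mul_le_one₀ (hwb _ _) (norm_nonneg _) (hχb _ _)))
  have hX2 : ∫ θ, ‖X θ‖ ^ 2 ∂CP = Q := by
    have h1 := orth_sum CP (Finset.range I) (fun i θ => w i θ * χ i θ) (fun i => (hwm i).mul (hχm i)) 1
      (fun i θ => by rw [norm_mul]; exact mul_le_one₀ (hwb _ _) (norm_nonneg _) (hχb _ _)) horth
    rw [h1, ← integral_finsetSum _ fun i _ => hwχi i]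
    simp only [hcount2]
    simp
  have hXb : ∀ θ, ‖X θ‖ ≤ I := by
    intro θ
    refine (norm_sum_le_of_le _ fun i _ => (?_ : ‖w i θ * χ i θ‖ ≤ 1)).trans (by simp)
    rw [norm_mul]
    exact mul_le_one₀ (hwb _ _) (norm_nonneg _) (hχb _ _)
  have hQ0 : (0 : ℝ) < Q := by exact_mod_cast hQ
  have hsq : 0 < Real.sqrt Q := Real.sqrt_pos.2 hQ0
  have hX1 : ∫ θ, ‖X θ‖ ∂CP ≤ Real.sqrt Q := by
    have hXi : Integrable (fun θ => ‖X θ‖ ^ 2) CP := Integrable.of_bound (hXm.norm.pow_const 2).aestronglyMeasurable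
      ((I : ℝ) ^ 2) (Eventually.of_forall fun θ => by
        rw [Real.norm_eq_abs, abs_of_nonneg (by positivity)]
        exact pow_le_pow_left₀ (norm_nonneg _) (hXb θ) 2)
    calc ∫ θ, ‖X θ‖ ∂CP ≤ ∫ θ, ((1 / (2 * Real.sqrt Q)) * ‖X θ‖ ^ 2 + Real.sqrt Q / 2) ∂CP := by
          refine integral_mono_of_nonneg (Eventually.of_forall fun θ => norm_nonneg _)
            ((hXi.const_mul _).add (integrable_const _)) (Eventually.of_forall fun θ => ?_)
          simp only
          have h1 : 0 ≤ (‖X θ‖ - Real.sqrt Q) ^ 2 := sq_nonneg _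
          have h2 : ‖X θ‖ = (1 / (2 * Real.sqrt Q)) * (2 * Real.sqrt Q * ‖X θ‖) := by field_simp
          have h3 : Real.sqrt Q / 2 = (1 / (2 * Real.sqrt Q)) * (Real.sqrt Q) ^ 2 := by field_simp
          calc ‖X θ‖ = (1 / (2 * Real.sqrt Q)) * (2 * Real.sqrt Q * ‖X θ‖) := h2
            _ ≤ (1 / (2 * Real.sqrt Q)) * (‖X θ‖ ^ 2 + (Real.sqrt Q) ^ 2) := by
                gcongr
                nlinarith
            _ = (1 / (2 * Real.sqrt Q)) * ‖X θ‖ ^ 2 + Real.sqrt Q / 2 := by
                rw [mul_add, ← h3]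
      _ = (1 / (2 * Real.sqrt Q)) * Q + Real.sqrt Q / 2 := by
          rw [integral_add (hXi.const_mul _) (integrable_const _), integral_const_mul, hX2, integral_const]
          simp
      _ = Real.sqrt Q := by
          have h4 : (Q : ℝ) = Real.sqrt Q * Real.sqrt Q := (Real.mul_self_sqrt hQ0.le).symm
          have : ∀ v : ℝ, 0 < v → (1 / (2 * v)) * (v * v) + v / 2 = v := by
            intro v hv
            field_simp
            ring
          conv_lhs => rw [h4]
          rw [Real.sqrt_mul_self hsq.le]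
          exact this _ hsq
  -- conclusion
  set Dq : (ℕ → Bool) → ℂ := fun θ => g (pos (hgt e lam θ) (q + 1)) - g (pos (hgt e lam θ) q) with hDq
  set Su : (ℕ → Bool) → ℂ := fun θ => g (pos (hgt e lam θ) (q + 1)) + g (pos (hgt e lam θ) q) with hSu
  have hDm : Measurable Dq := (hgm _).sub (hgm _)
  have hSm : Measurable Su := (hgm _).add (hgm _)
  have hDb : ∀ θ, ‖Dq θ‖ ≤ C + C := fun θ => (norm_sub_le _ _).trans (add_le_add (hg _) (hg _))
  have hSb : ∀ θ, ‖Su θ‖ ≤ C + C := fun θ => (norm_add_le _ _).trans (add_le_add (hg _) (hg _))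
  have hint : ∀ (A : (ℕ → Bool) → ℂ) (B : ℝ), Measurable A → (∀ θ, ‖A θ‖ ≤ B) → Integrable A CP := fun A B hA hB =>
    Integrable.of_bound hA.aestronglyMeasurable B (Eventually.of_forall hB)
  have hi1 : ∀ i, Integrable (fun θ => w i θ * Φ θ * Dq θ) CP := fun i =>
    hint _ (1 * C * (C + C)) (((hwm i).mul hΦm).mul hDm) fun θ => by
      rw [norm_mul, norm_mul]
      exact mul_le_mul (mul_le_mul (hwb i θ) (hΦb θ) (norm_nonneg _) zero_le_one) (hDb θ) (norm_nonneg _) (by positivity)
  have hi2 : ∀ i, Integrable (fun θ => w i θ * Φ θ * (χ i θ * Su θ)) CP := fun i =>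
    hint _ (1 * C * (1 * (C + C))) (((hwm i).mul hΦm).mul ((hχm i).mul hSm)) fun θ => by
      rw [norm_mul, norm_mul, norm_mul]
      exact mul_le_mul (mul_le_mul (hwb i θ) (hΦb θ) (norm_nonneg _) zero_le_one)
        (mul_le_mul (hχb i θ) (hSb θ) (norm_nonneg _) zero_le_one) (by positivity) (by positivity)
  have heq : ∀ i ∈ Finset.range I, ∫ θ, w i θ * Φ θ * Dq θ ∂CP = ∫ θ, w i θ * Φ θ * (χ i θ * Su θ) ∂CP := by
    intro i hi
    have h1 := hone i (Finset.mem_range.1 hi)
    have h2 : ∫ θ, (w i θ * Φ θ * Dq θ - w i θ * Φ θ * (χ i θ * Su θ)) ∂CP = 0 := by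
      rw [← h1]
      refine integral_congr_ae (Eventually.of_forall fun θ => ?_)
      simp only [hDq, hSu]
      ring
    rw [integral_sub (hi1 i) (hi2 i), sub_eq_zero] at h2
    exact h2
  have hmain : (Q : ℂ) * ∫ θ, Φ θ * Dq θ ∂CP = ∫ θ, Φ θ * Su θ * X θ ∂CP := by
    calc (Q : ℂ) * ∫ θ, Φ θ * Dq θ ∂CP = ∫ θ, (Q : ℂ) * (Φ θ * Dq θ) ∂CP := (integral_const_mul _ _).symm
      _ = ∫ θ, ∑ i ∈ Finset.range I, w i θ * Φ θ * Dq θ ∂CP := by
          refine integral_congr_ae (Eventually.of_forall fun θ => ?_)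
          simp only
          rw [← hcount θ, Finset.sum_mul]
          refine Finset.sum_congr rfl fun i _ => by ring
      _ = ∑ i ∈ Finset.range I, ∫ θ, w i θ * Φ θ * Dq θ ∂CP := integral_finsetSum _ fun i _ => hi1 i
      _ = ∑ i ∈ Finset.range I, ∫ θ, w i θ * Φ θ * (χ i θ * Su θ) ∂CP := Finset.sum_congr rfl heq
      _ = ∫ θ, ∑ i ∈ Finset.range I, w i θ * Φ θ * (χ i θ * Su θ) ∂CP := (integral_finsetSum _ fun i _ => hi2 i).symm
      _ = ∫ θ, Φ θ * Su θ * X θ ∂CP := by
          refine integral_congr_ae (Eventually.of_forall fun θ => ?_)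
          simp only [hX]
          rw [Finset.mul_sum]
          refine Finset.sum_congr rfl fun i _ => by ring
  have hXi1 : Integrable (fun θ => ‖X θ‖) CP := Integrable.of_bound hXm.norm.aestronglyMeasurable I
    (Eventually.of_forall fun θ => by rw [norm_norm]; exact hXb θ)
  have hbound : ‖∫ θ, Φ θ * Su θ * X θ ∂CP‖ ≤ 2 * C ^ 2 * Real.sqrt Q := by
    calc ‖∫ θ, Φ θ * Su θ * X θ ∂CP‖ ≤ ∫ θ, ‖Φ θ * Su θ * X θ‖ ∂CP := norm_integral_le_integral_norm _
      _ ≤ ∫ θ, (2 * C ^ 2) * ‖X θ‖ ∂CP := by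
          refine integral_mono_of_nonneg (Eventually.of_forall fun θ => norm_nonneg _) (hXi1.const_mul _)
            (Eventually.of_forall fun θ => ?_)
          simp only
          rw [norm_mul, norm_mul]
          refine mul_le_mul_of_nonneg_right ?_ (norm_nonneg _)
          calc ‖Φ θ‖ * ‖Su θ‖ ≤ C * (C + C) := mul_le_mul (hΦb θ) (hSb θ) (norm_nonneg _) hC
            _ = 2 * C ^ 2 := by ring
      _ = (2 * C ^ 2) * ∫ θ, ‖X θ‖ ∂CP := integral_const_mul _ _
      _ ≤ 2 * C ^ 2 * Real.sqrt Q := by gcongr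
  have h5 : (Q : ℝ) * ‖∫ θ, Φ θ * Dq θ ∂CP‖ ≤ 2 * C ^ 2 * Real.sqrt Q := by
    rw [← hmain, norm_mul, Complex.norm_natCast] at hbound
    exact hbound
  have h6 : (Q : ℝ) = Real.sqrt Q * Real.sqrt Q := (Real.mul_self_sqrt hQ0.le).symm
  change ‖∫ θ, Φ θ * Dq θ ∂CP‖ ≤ 2 * C ^ 2 / Real.sqrt Q
  rw [le_div_iff₀ hsq]
  rw [h6] at h5
  rw [Real.sqrt_mul_self hsq.le] at h5
  nlinarith [norm_nonneg (∫ θ, Φ θ * Dq θ ∂CP)]

end Pool.Agent.R205.TC
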