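import Pool.Agent.R205.TC.A2
import Pool.Agent.R205.PC.Z9

/-!
# Towers with random heights: the shift argument for one point
-/

set_option autoImplicit false

open MeasureTheory Filter Topology Set Finset
open scoped ENNReal ComplexConjugate

namespace Pool.Agent.R205.TC

open Pool.Agent.R205.PC (Fresh Lk ae_cofinite grid_to_full box sum_box_one gp rt)

lemma moment2 {Ω : Type*} [MeasurableSpace Ω] (Q : Measure Ω) [IsProbabilityMeasure Q] (Ψ : ℕ → Ω → ℂ)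
    (hΨ : ∀ n, Measurable (Ψ n)) (C : ℝ) (hC : ∀ n ω, ‖Ψ n ω‖ ≤ C) (N G : ℕ) (δ : ℝ) (hδ : 0 ≤ δ)
    (h : ∀ n' n, n' + G ≤ n → n ≤ N → ‖∫ ω, Ψ n ω * conj (Ψ n' ω) ∂Q‖ ≤ δ) :
    ∫ ω, ‖∑ n ∈ Finset.Icc 1 N, Ψ n ω‖ ^ 2 ∂Q ≤ C ^ 2 * N * (2 * G + 1) + N ^ 2 * δ := by
  have hC0 : 0 ≤ C := (norm_nonneg _).trans (hC 0 (Classical.choice (nonempty_of_isProbabilityMeasure Q)))
  have hint : ∀ n n', Integrable (fun ω => Ψ n ω * conj (Ψ n' ω)) Q := by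
    intro n n'
    refine Integrable.of_bound ((hΨ n).mul ((Complex.continuous_conj.measurable).comp (hΨ n'))).aestronglyMeasurable (C * C) ?_
    filter_upwards with ω
    rw [norm_mul, Complex.norm_conj]
    exact mul_le_mul (hC n ω) (hC n' ω) (norm_nonneg _) hC0
  have hbd : ∀ n n', ‖∫ ω, Ψ n ω * conj (Ψ n' ω) ∂Q‖ ≤ C ^ 2 := by
    intro n n'
    have h1 : ∀ᵐ ω ∂Q, ‖Ψ n ω * conj (Ψ n' ω)‖ ≤ C ^ 2 := by
      filter_upwards with ω
      rw [norm_mul, Complex.norm_conj, sq]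
      exact mul_le_mul (hC n ω) (hC n' ω) (norm_nonneg _) hC0
    have := norm_integral_le_of_norm_le_const h1
    simpa using this
  have hsymm : ∀ n n', n + G ≤ n' → n' ≤ N → ‖∫ ω, Ψ n ω * conj (Ψ n' ω) ∂Q‖ ≤ δ := by
    intro n n' h1 h2
    have h3 := h n n' h1 h2
    have h4 : ∀ ω, Ψ n ω * conj (Ψ n' ω) = conj (Ψ n' ω * conj (Ψ n ω)) := by
      intro ω
      rw [map_mul, Complex.conj_conj, mul_comm]
    simp only [h4]
    rw [integral_conj, Complex.norm_conj]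
    exact h3
  have key : ((∫ ω, ‖∑ n ∈ Finset.Icc 1 N, Ψ n ω‖ ^ 2 ∂Q : ℝ) : ℂ) =
      ∑ n ∈ Finset.Icc 1 N, ∑ n' ∈ Finset.Icc 1 N, ∫ ω, Ψ n ω * conj (Ψ n' ω) ∂Q := by
    rw [← integral_complex_ofReal]
    have h1 : ∀ ω, (((‖∑ n ∈ Finset.Icc 1 N, Ψ n ω‖ ^ 2 : ℝ)) : ℂ) =
        ∑ n ∈ Finset.Icc 1 N, ∑ n' ∈ Finset.Icc 1 N, Ψ n ω * conj (Ψ n' ω) := by
      intro ω
      rw [Complex.ofReal_pow, ← Complex.mul_conj', map_sum, Finset.sum_mul_sum]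
    simp only [h1]
    rw [integral_finsetSum _ fun n _ => integrable_finsetSum _ fun n' _ => hint n n']
    refine Finset.sum_congr rfl fun n _ => ?_
    rw [integral_finsetSum _ fun n' _ => hint n n']
  have hnn : 0 ≤ ∫ ω, ‖∑ n ∈ Finset.Icc 1 N, Ψ n ω‖ ^ 2 ∂Q := integral_nonneg fun ω => by positivity
  calc ∫ ω, ‖∑ n ∈ Finset.Icc 1 N, Ψ n ω‖ ^ 2 ∂Q = ‖((∫ ω, ‖∑ n ∈ Finset.Icc 1 N, Ψ n ω‖ ^ 2 ∂Q : ℝ) : ℂ)‖ := by
        rw [Complex.norm_real, Real.norm_eq_abs, abs_of_nonneg hnn]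
    _ = ‖∑ n ∈ Finset.Icc 1 N, ∑ n' ∈ Finset.Icc 1 N, ∫ ω, Ψ n ω * conj (Ψ n' ω) ∂Q‖ := by rw [key]
    _ ≤ ∑ n ∈ Finset.Icc 1 N, ∑ n' ∈ Finset.Icc 1 N, ‖∫ ω, Ψ n ω * conj (Ψ n' ω) ∂Q‖ := by
        refine (norm_sum_le _ _).trans (Finset.sum_le_sum fun n _ => norm_sum_le _ _)
    _ ≤ ∑ n ∈ Finset.Icc 1 N, ∑ n' ∈ Finset.Icc 1 N, ((if n' ∈ Finset.Icc (n - G) (n + G) then C ^ 2 else 0) + δ) := by
        refine Finset.sum_le_sum fun n hn => Finset.sum_le_sum fun n' hn' => ?_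
        rw [Finset.mem_Icc] at hn hn'
        split_ifs with h5
        · exact (hbd n n').trans (by linarith)
        · rw [Finset.mem_Icc] at h5
          rw [zero_add]
          rcases lt_or_ge (n + G) n' with h1 | h1
          · exact hsymm n n' h1.le hn'.2
          · exact h n' n (by omega) hn.2
    _ ≤ ∑ n ∈ Finset.Icc 1 N, ((2 * G + 1 : ℝ) * C ^ 2 + N * δ) := by
        refine Finset.sum_le_sum fun n _ => ?_
        rw [Finset.sum_add_distrib, ← Finset.sum_filter, Finset.sum_const, nsmul_eq_mul, Finset.sum_const, nsmul_eq_mul,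
          Nat.card_Icc, Nat.add_sub_cancel]
        gcongr
        have h1 : (#{a ∈ Finset.Icc 1 N | a ∈ Finset.Icc (n - G) (n + G)}) ≤ #(Finset.Icc (n - G) (n + G)) :=
          Finset.card_le_card fun a ha => (Finset.mem_filter.1 ha).2
        rw [Nat.card_Icc] at h1
        have h2 : (#{a ∈ Finset.Icc 1 N | a ∈ Finset.Icc (n - G) (n + G)}) ≤ 2 * G + 1 := by omega
        exact_mod_cast h2
    _ = C ^ 2 * N * (2 * G + 1) + N ^ 2 * δ := by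
        rw [Finset.sum_const, Nat.card_Icc, Nat.add_sub_cancel, nsmul_eq_mul]; ring

/-- from the sixteenth powers to all `N` -/
lemma tendsto_of_16 (z : ℕ → ℂ) (C : ℝ) (hz : ∀ n, ‖z n‖ ≤ C)
    (h : Tendsto (fun r : ℕ => ((r ^ 16 : ℕ) : ℂ)⁻¹ * ∑ n ∈ Finset.Icc 1 (r ^ 16), z n) atTop (𝓝 0)) :
    Tendsto (fun N : ℕ => (N : ℂ)⁻¹ * ∑ n ∈ Finset.Icc 1 N, z n) atTop (𝓝 0) := by
  have hmap : Tendsto (fun (N : ℕ) (_ : Fin 1) => N) atTop atTop :=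
    Pool.Agent.R205.PC.tendsto_of_coord _ fun _ => tendsto_id
  have key := grid_to_full (k := 1) (q := 16) (by norm_num) (F := map (fun (N : ℕ) (_ : Fin 1) => N) atTop) hmap
    (fun m => z (m 0)) C (fun m => hz _) (by
      rw [tendsto_map'_iff]
      refine ((h.comp (Pool.Agent.R205.PC.rt_tendsto (q := 16) (by norm_num)))).congr fun N => ?_
      simp only [Function.comp]
      rw [Fin.prod_univ_one]
      have e1 : gp 16 (fun _ : Fin 1 => N) = fun _ => rt 16 N ^ 16 := rfl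
      rw [e1, sum_box_one (rt 16 N ^ 16) z])
  rw [tendsto_map'_iff] at key
  refine key.congr fun N => ?_
  simp only [Function.comp]
  rw [Fin.prod_univ_one, sum_box_one N z]

lemma data_of_fresh {Y : Type*} (S : Y → Y) (ξ : Y → ℕ) (y : Y) (hy : Fresh S ξ y) (e : ℕ → ℕ) (b : ℕ)
    (he : ∀ s, 1 ≤ e s) (hb : ∀ s, e s + 1 ≤ b) (k R : ℕ) (hR : R ≤ Lk k) :
    Data e (fun s => ξ (S^[s] y)) b (2 * 2 ^ k + 1) R := by
  refine ⟨he, hb, fun a ha => ?_⟩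
  obtain ⟨t, h1, h2, h3⟩ := hy k a
  exact ⟨t, h1, by omega, fun s hs hst => h3 s hst (by omega) (by omega)⟩

/-- the shift argument -/
theorem star {Y : Type*} (S : Y → Y) (ξ : Y → ℕ) (y : Y) (hy : Fresh S ξ y) (e : ℕ → ℕ) (b : ℕ)
    (he : ∀ s, 1 ≤ e s) (hb : ∀ s, e s + 1 ≤ b) (r : ℕ) (a : ℕ → ℕ) (ha0 : 1 ≤ a r) (ha : ∀ j < r, a j + 1 ≤ a r)
    (c i : ℕ) (β : ℕ → ℂ) (g : ℕ → ℕ × ℕ → ℂ) (C : ℝ) (hC : 1 ≤ C) (hβ : ∀ n, ‖β n‖ ≤ C)
    (hg : ∀ j z, ‖g j z‖ ≤ C) :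
    ∀ᵐ θ ∂CP, Tendsto (fun N : ℕ => (N : ℂ)⁻¹ * ∑ n ∈ Finset.Icc 1 N,
      β n * (∏ j ∈ Finset.range r, g j (pos (hgt e (fun s => ξ (S^[s] y)) θ) (a j * n + c))) *
        (g r (pos (hgt e (fun s => ξ (S^[s] y)) θ) (a r * n + c + i + 1)) -
          g r (pos (hgt e (fun s => ξ (S^[s] y)) θ) (a r * n + c + i)))) atTop (𝓝 0) := by
  set lam : ℕ → ℕ := fun s => ξ (S^[s] y) with hlam
  have hC0 : 0 ≤ C := by linarith
  set Pr : ℕ → (ℕ → Bool) → ℂ := fun n θ => ∏ j ∈ Finset.range r, g j (pos (hgt e lam θ) (a j * n + c)) with hPr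
  set Dd : ℕ → (ℕ → Bool) → ℂ := fun n θ => g r (pos (hgt e lam θ) (a r * n + c + i + 1)) -
    g r (pos (hgt e lam θ) (a r * n + c + i)) with hDd
  set Ξ : ℕ → (ℕ → Bool) → ℂ := fun n θ => β n * Pr n θ * Dd n θ with hΞ
  have hgm : ∀ j p, Measurable (fun θ : ℕ → Bool => g j (pos (hgt e lam θ) p)) := fun j p =>
    (Measurable.of_discrete (f := g j)).comp (meas_pos e lam p)
  have hPm : ∀ n, Measurable (Pr n) := fun n => Finset.measurable_fun_prod _ fun j _ => hgm j _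
  have hDm : ∀ n, Measurable (Dd n) := fun n => (hgm r _).sub (hgm r _)
  have hΞm : ∀ n, Measurable (Ξ n) := fun n => (measurable_const.mul (hPm n)).mul (hDm n)
  have hPb : ∀ n θ, ‖Pr n θ‖ ≤ C ^ r := by
    intro n θ
    simp only [hPr]
    rw [norm_prod]
    calc ∏ j ∈ Finset.range r, ‖g j (pos (hgt e lam θ) (a j * n + c))‖ ≤ ∏ _j ∈ Finset.range r, C :=
          Finset.prod_le_prod (fun _ _ => norm_nonneg _) fun j _ => hg j _
      _ = C ^ r := by rw [Finset.prod_const, Finset.card_range]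
  have hDb : ∀ n θ, ‖Dd n θ‖ ≤ 2 * C := fun n θ => by
    refine (norm_sub_le _ _).trans ((add_le_add (hg _ _) (hg _ _)).trans (by linarith))
  set C2 : ℝ := C * C ^ r * (2 * C) with hC2
  have hC20 : 0 ≤ C2 := by positivity
  have hΞb : ∀ n θ, ‖Ξ n θ‖ ≤ C2 := by
    intro n θ
    simp only [hΞ]
    rw [norm_mul, norm_mul]
    exact mul_le_mul (mul_le_mul (hβ n) (hPb n θ) (norm_nonneg _) hC0) (hDb n θ) (norm_nonneg _) (by positivity)
  set C1 : ℝ := max (C * C ^ r * C2) C with hC1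
  have hC10 : 0 ≤ C1 := le_max_of_le_right hC0
  -- correlation bound
  have hcor : ∀ (k Q N : ℕ), 0 < Q → a r * N + c + i + 2 ≤ Lk k → ∀ n' n,
      n' + (b * ((Q + 1) * (2 * 2 ^ k + 1)) + 1) ≤ n → n ≤ N →
      ‖∫ θ, Ξ n θ * conj (Ξ n' θ) ∂CP‖ ≤ 2 * C1 ^ 2 / Real.sqrt Q := by
    intro k Q N hQ hk n' n hnn hnN
    set R := a r * N + c + i + 2 with hR
    have hD := data_of_fresh S ξ y hy e b he hb k R hk
    set Wd := b * ((Q + 1) * (2 * 2 ^ k + 1)) with hWd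
    set q := a r * n + c + i with hq
    set P0 := q - Wd with hP0
    have hqn : n ≤ a r * n := Nat.le_mul_of_pos_left _ ha0
    have hP0q : P0 + Wd = q := by omega
    have hRn : a r * n ≤ a r * N := Nat.mul_le_mul_left _ hnN
    have h1 := corr hD (by omega) P0 q Q hQ hP0q.le (by omega) C1 hC10
      (fun θ => β n * Pr n θ * conj (Ξ n' θ))
      ((measurable_const.mul (hPm n)).mul (Complex.continuous_conj.measurable.comp (hΞm n')))
      (fun θ => by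
        rw [norm_mul, norm_mul, Complex.norm_conj]
        refine le_trans ?_ (le_max_left _ _)
        exact mul_le_mul (mul_le_mul (hβ n) (hPb n θ) (norm_nonneg _) hC0) (hΞb n' θ) (norm_nonneg _) (by positivity))
      (fun θ θ' hθ => by
        have hag : ∀ p, p ≤ P0 → pos (hgt e lam θ') p = pos (hgt e lam θ) p := fun p hp =>
          pos_agree' _ _ p fun s hs => hθ s (hs.trans (col_mono _ hp))
        have e1 : Pr n θ' = Pr n θ := by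
          simp only [hPr]
          refine Finset.prod_congr rfl fun j hj => ?_
          rw [hag]
          have h2 := ha j (Finset.mem_range.1 hj)
          have h3 : (a j + 1) * n ≤ a r * n := Nat.mul_le_mul_right _ h2
          have h4 : (a j + 1) * n = a j * n + n := by ring
          omega
        have hn' : a r * n' + Wd + 1 ≤ a r * n := by
          have h2 : a r * (n' + (Wd + 1)) ≤ a r * n := Nat.mul_le_mul_left _ hnn
          have h3 : Wd + 1 ≤ a r * (Wd + 1) := Nat.le_mul_of_pos_left _ ha0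
          have h4 : a r * (n' + (Wd + 1)) = a r * n' + a r * (Wd + 1) := by ring
          omega
        have e2 : Ξ n' θ' = Ξ n' θ := by
          simp only [hΞ, hPr, hDd]
          rw [hag _ (by omega), hag _ (by omega)]
          congr 2
          refine Finset.prod_congr rfl fun j hj => ?_
          rw [hag]
          have h2 := ha j (Finset.mem_range.1 hj)
          have h3 : (a j + 1) * n' ≤ a r * n' := Nat.mul_le_mul_right _ h2
          have h4 : (a j + 1) * n' = a j * n' + n' := by ring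
          omega
        simp only [e1, e2])
      (g r) (fun z => (hg r z).trans (le_max_right _ _))
    refine le_trans (le_of_eq ?_) h1
    congr 1
    refine integral_congr_ae (Eventually.of_forall fun θ => ?_)
    simp only [hΞ, hDd]
    ring
  -- second moments
  have hev : ∃ ρ0 : ℕ, 1 ≤ ρ0 ∧ ∀ ρ : ℕ, ρ0 ≤ ρ → a r * ρ ^ 16 + c + i + 2 ≤ Lk (Nat.log 4 (ρ ^ 16)) := by
    refine ⟨a r + c + i + 4, by omega, fun ρ hρ => ?_⟩
    set N := ρ ^ 16 with hN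
    have hρN : ρ ≤ N := Nat.le_self_pow (by norm_num) ρ
    have h4 : 4 ≤ N := by omega
    have hlog : 1 ≤ Nat.log 4 N := Nat.le_log_of_pow_le (by norm_num) (by omega)
    have h5 : N < 4 ^ (Nat.log 4 N + 1) := Nat.lt_pow_succ_log_self (by norm_num) N
    have h6 : N ^ 2 ≤ Lk (Nat.log 4 N) := by
      unfold Lk
      calc N ^ 2 ≤ (4 ^ (Nat.log 4 N + 1)) ^ 2 := Nat.pow_le_pow_left h5.le 2
        _ = 4 ^ ((Nat.log 4 N + 1) * 2) := by rw [← pow_mul]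
        _ ≤ 4 ^ ((Nat.log 4 N + 1) ^ 2) := by
            apply Nat.pow_le_pow_right (by norm_num)
            rw [sq]
            exact Nat.mul_le_mul_left _ (by omega)
    have h7 : a r * N + c + i + 2 ≤ N ^ 2 := by
      rw [sq]
      have h8 : (a r + (c + i + 2)) * N ≤ N * N := Nat.mul_le_mul_right _ (by omega)
      have h9 : c + i + 2 ≤ (c + i + 2) * N := Nat.le_mul_of_pos_right _ (by omega)
      nlinarith
    exact h7.trans h6
  obtain ⟨ρ0, hρ01, hρ0⟩ := hev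
  set C3 : ℝ := C2 ^ 2 * (2 * (6 * b + 2) + 1) + 2 * C1 ^ 2 with hC3
  have hC30 : 0 ≤ C3 := by positivity
  have hmom : ∀ ρ : ℕ, ρ0 ≤ ρ → ∫ θ, ‖((ρ ^ 16 : ℕ) : ℂ)⁻¹ * ∑ n ∈ Finset.Icc 1 (ρ ^ 16), Ξ n θ‖ ^ 2 ∂CP ≤ C3 / (ρ : ℝ) ^ 2 := by
    intro ρ hρ
    have hρ1 : 1 ≤ ρ := hρ01.trans hρ
    have hρR : (1 : ℝ) ≤ ρ := by exact_mod_cast hρ1
    set N := ρ ^ 16 with hN
    set k := Nat.log 4 N with hk
    have hQ : 0 < ρ ^ 4 := Nat.pow_pos hρ1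
    set G := b * ((ρ ^ 4 + 1) * (2 * 2 ^ k + 1)) + 1 with hG
    have h1 := moment2 CP Ξ hΞm C2 hΞb N G (2 * C1 ^ 2 / Real.sqrt ((ρ ^ 4 : ℕ) : ℝ)) (by positivity)
      (fun n' n hnn hnN => hcor k (ρ ^ 4) N hQ (hρ0 ρ hρ) n' n hnn hnN)
    have hsq : Real.sqrt ((ρ ^ 4 : ℕ) : ℝ) = (ρ : ℝ) ^ 2 := by
      rw [Nat.cast_pow, show (ρ : ℝ) ^ 4 = ((ρ : ℝ) ^ 2) ^ 2 by ring, Real.sqrt_sq (by positivity)]
    rw [hsq] at h1
    have h2k : 2 ^ k ≤ ρ ^ 8 := by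
      have e1 : 4 ^ k ≤ N := Nat.pow_log_le_self 4 (by positivity)
      have e2 : (2 ^ k) ^ 2 ≤ (ρ ^ 8) ^ 2 := by
        calc (2 ^ k) ^ 2 = 4 ^ k := by rw [← pow_mul, mul_comm, pow_mul]; norm_num
          _ ≤ N := e1
          _ = (ρ ^ 8) ^ 2 := by rw [hN]; ring
      exact (Nat.pow_le_pow_iff_left (by norm_num)).1 e2
    have hGle : (G : ℝ) ≤ (6 * b + 1) * (ρ : ℝ) ^ 12 := by
      have e1 : G ≤ b * ((ρ ^ 4 + ρ ^ 4) * (3 * ρ ^ 8)) + ρ ^ 12 := by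
        have e2 : 1 ≤ ρ ^ 4 := hQ
        have e3 : 1 ≤ ρ ^ 8 := Nat.one_le_pow _ _ hρ1
        have e4 : 1 ≤ ρ ^ 12 := Nat.one_le_pow _ _ hρ1
        have e5 : (ρ ^ 4 + 1) * (2 * 2 ^ k + 1) ≤ (ρ ^ 4 + ρ ^ 4) * (3 * ρ ^ 8) :=
          Nat.mul_le_mul (by omega) (by omega)
        have e6 := Nat.mul_le_mul_left b e5
        omega
      have e7 : ((G : ℕ) : ℝ) ≤ ((b * ((ρ ^ 4 + ρ ^ 4) * (3 * ρ ^ 8)) + ρ ^ 12 : ℕ) : ℝ) := by exact_mod_cast e1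
      refine e7.trans (le_of_eq ?_)
      push_cast
      ring
    have hNR : (N : ℝ) = (ρ : ℝ) ^ 16 := by rw [hN]; push_cast; ring
    have hN0 : (0 : ℝ) < N := by rw [hNR]; positivity
    have h2 : ∀ θ, ‖(N : ℂ)⁻¹ * ∑ n ∈ Finset.Icc 1 N, Ξ n θ‖ ^ 2 = ((N : ℝ) ^ 2)⁻¹ * ‖∑ n ∈ Finset.Icc 1 N, Ξ n θ‖ ^ 2 := by
      intro θ
      rw [norm_mul, mul_pow, norm_inv, Complex.norm_natCast, inv_pow]
    simp only [h2]
    rw [integral_const_mul]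
    calc ((N : ℝ) ^ 2)⁻¹ * ∫ θ, ‖∑ n ∈ Finset.Icc 1 N, Ξ n θ‖ ^ 2 ∂CP
        ≤ ((N : ℝ) ^ 2)⁻¹ * (C2 ^ 2 * N * (2 * G + 1) + N ^ 2 * (2 * C1 ^ 2 / (ρ : ℝ) ^ 2)) := by gcongr
      _ = C2 ^ 2 * (2 * G + 1) / N + 2 * C1 ^ 2 / (ρ : ℝ) ^ 2 := by field_simp
      _ ≤ C2 ^ 2 * ((2 * (6 * b + 2) + 1) * (ρ : ℝ) ^ 12) / N + 2 * C1 ^ 2 / (ρ : ℝ) ^ 2 := by
          gcongr
          have e8 : (1 : ℝ) ≤ (ρ : ℝ) ^ 12 := one_le_pow₀ hρR
          nlinarith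
      _ = C2 ^ 2 * (2 * (6 * b + 2) + 1) / (ρ : ℝ) ^ 4 + 2 * C1 ^ 2 / (ρ : ℝ) ^ 2 := by
          rw [hNR]
          field_simp
      _ ≤ C2 ^ 2 * (2 * (6 * b + 2) + 1) / (ρ : ℝ) ^ 2 + 2 * C1 ^ 2 / (ρ : ℝ) ^ 2 := by
          gcongr
          norm_num
      _ = C3 / (ρ : ℝ) ^ 2 := by rw [hC3, ← add_div]
  set C4 : ℝ := 4 * C3 + C2 ^ 2 * ((ρ0 : ℝ) + 1) ^ 2 with hC4
  have hsumm : Summable (fun ρ : ℕ => C4 * (1 / ((ρ : ℝ) + 1) ^ 2)) := by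
    refine Summable.mul_left _ ?_
    have := (summable_nat_add_iff 1).2 (Real.summable_one_div_nat_pow.2 (by norm_num : 1 < 2))
    simpa using this
  have hAb : ∀ (ρ : ℕ) θ, ‖((ρ ^ 16 : ℕ) : ℂ)⁻¹ * ∑ n ∈ Finset.Icc 1 (ρ ^ 16), Ξ n θ‖ ≤ C2 := by
    intro ρ θ
    rw [norm_mul, norm_inv, Complex.norm_natCast]
    have h1 : ‖∑ n ∈ Finset.Icc 1 (ρ ^ 16), Ξ n θ‖ ≤ ((ρ ^ 16 : ℕ) : ℝ) * C2 := by
      refine (norm_sum_le_of_le _ fun n _ => hΞb n θ).trans ?_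
      rw [Finset.sum_const, Nat.card_Icc, Nat.add_sub_cancel, nsmul_eq_mul]
    rcases Nat.eq_zero_or_pos (ρ ^ 16) with h0 | h0
    · rw [h0]; simp [hC20]
    · have h0' : (0 : ℝ) < ((ρ ^ 16 : ℕ) : ℝ) := by exact_mod_cast h0
      rw [inv_mul_le_iff₀ h0']
      exact h1
  have hae := ae_cofinite CP (fun (ρ : ℕ) θ => ((ρ ^ 16 : ℕ) : ℂ)⁻¹ * ∑ n ∈ Finset.Icc 1 (ρ ^ 16), Ξ n θ)
    (fun ρ => measurable_const.mul (Finset.measurable_fun_sum _ fun n _ => hΞm n)) (fun _ => C2) hAb _ hsumm (fun ρ => by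
      rcases lt_or_ge ρ ρ0 with h1 | h1
      · have h2 : ∫ θ, ‖((ρ ^ 16 : ℕ) : ℂ)⁻¹ * ∑ n ∈ Finset.Icc 1 (ρ ^ 16), Ξ n θ‖ ^ 2 ∂CP ≤ C2 ^ 2 := by
          have h3 := integral_mono_of_nonneg (μ := CP)
            (f := fun θ => ‖((ρ ^ 16 : ℕ) : ℂ)⁻¹ * ∑ n ∈ Finset.Icc 1 (ρ ^ 16), Ξ n θ‖ ^ 2) (g := fun _ => C2 ^ 2)
            (Eventually.of_forall fun θ => by simp only [Pi.zero_apply]; positivity) (integrable_const _)
            (Eventually.of_forall fun θ => pow_le_pow_left₀ (norm_nonneg _) (hAb ρ θ) 2)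
          simpa using h3
        refine h2.trans ?_
        have h4 : ((ρ : ℝ) + 1) ≤ (ρ0 : ℝ) + 1 := by
          have : (ρ : ℝ) ≤ ρ0 := by exact_mod_cast h1.le
          linarith
        rw [mul_one_div, le_div_iff₀ (by positivity)]
        calc C2 ^ 2 * ((ρ : ℝ) + 1) ^ 2 ≤ C2 ^ 2 * ((ρ0 : ℝ) + 1) ^ 2 := by gcongr
          _ ≤ C4 := by rw [hC4]; linarith
      · refine (hmom ρ h1).trans ?_
        have hρR : (1 : ℝ) ≤ ρ := by exact_mod_cast hρ01.trans h1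
        rw [mul_one_div, div_le_div_iff₀ (by positivity) (by positivity)]
        have h5 : ((ρ : ℝ) + 1) ^ 2 ≤ 4 * (ρ : ℝ) ^ 2 := by nlinarith
        calc C3 * ((ρ : ℝ) + 1) ^ 2 ≤ C3 * (4 * (ρ : ℝ) ^ 2) := by gcongr
          _ = (4 * C3) * (ρ : ℝ) ^ 2 := by ring
          _ ≤ C4 * (ρ : ℝ) ^ 2 := by
              gcongr
              rw [hC4]
              have : 0 ≤ C2 ^ 2 * ((ρ0 : ℝ) + 1) ^ 2 := by positivity
              linarith)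
  filter_upwards [hae] with θ hθ
  rw [Nat.cofinite_eq_atTop] at hθ
  exact tendsto_of_16 (fun n => Ξ n θ) C2 (fun n => hΞb n θ) hθ

end Pool.Agent.R205.TC
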