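import Pool.Agent.R205.PC.Clos

/-!
# From the shift property to convergence of the multiple averages
-/

set_option autoImplicit false

open MeasureTheory Filter Topology Set Finset
open scoped ENNReal ComplexConjugate

namespace Pool.Agent.R205.TC

open Pool.Agent.R205.PC (avg_small prod_sub_le)

variable {X : Type*} [MeasurableSpace X]

/-- the conditional expectation onto the invariant sets -/
noncomputable def EI (ν : Measure X) (T : X → X) (f : X → ℂ) : X → ℂ := ν[f | MeasurableSpace.invariants T]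

theorem birkhoffC {ν : Measure X} [IsProbabilityMeasure ν] {T : X → X} (hT : MeasurePreserving T ν ν) (f : X → ℂ)
    (hf : Measurable f) (C : ℝ) (hb : ∀ x, ‖f x‖ ≤ C) :
    ∀ᵐ x ∂ν, Tendsto (fun n : ℕ => (n : ℂ)⁻¹ * ∑ k ∈ Finset.range n, f (T^[k] x)) atTop (𝓝 (EI ν T f x)) := by
  have hfi : Integrable f ν := Integrable.of_bound hf.aestronglyMeasurable C (Eventually.of_forall hb)
  have h1 := Pool.Agent.H165R3.BPE.birkhoff hT (fun x => (f x).re) (Complex.measurable_re.comp hf) C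
    (fun x => (Complex.abs_re_le_norm _).trans (hb x))
  have h2 := Pool.Agent.H165R3.BPE.birkhoff hT (fun x => (f x).im) (Complex.measurable_im.comp hf) C
    (fun x => (Complex.abs_im_le_norm _).trans (hb x))
  have h3 := Complex.reCLM.comp_condExp_comm (m := MeasurableSpace.invariants T) hfi
  have h4 := Complex.imCLM.comp_condExp_comm (m := MeasurableSpace.invariants T) hfi
  filter_upwards [h1, h2, h3, h4] with x h1 h2 h3 h4
  have e1 : (EI ν T f x).re = (ν[fun x => (f x).re | MeasurableSpace.invariants T]) x := h3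
  have e2 : (EI ν T f x).im = (ν[fun x => (f x).im | MeasurableSpace.invariants T]) x := h4
  rw [← e1] at h1
  rw [← e2] at h2
  have h5 : Tendsto (fun n : ℕ => ((((n : ℝ)⁻¹ * ∑ k ∈ Finset.range n, (f (T^[k] x)).re : ℝ) : ℂ) +
      (((n : ℝ)⁻¹ * ∑ k ∈ Finset.range n, (f (T^[k] x)).im : ℝ) : ℂ) * Complex.I)) atTop
      (𝓝 (((EI ν T f x).re : ℂ) + ((EI ν T f x).im : ℂ) * Complex.I)) :=
    ((Complex.continuous_ofReal.tendsto _).comp h1).add
      (((Complex.continuous_ofReal.tendsto _).comp h2).mul_const _)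
  rw [Complex.re_add_im] at h5
  refine h5.congr fun n => ?_
  push_cast
  rw [mul_assoc, ← mul_add, Finset.sum_mul, ← Finset.sum_add_distrib]
  congr 1
  refine Finset.sum_congr rfl fun k _ => ?_
  rw [Complex.re_add_im]

lemma EI_meas (ν : Measure X) (T : X → X) (f : X → ℂ) : Measurable (EI ν T f) := by
  have h1 : StronglyMeasurable[MeasurableSpace.invariants T] (EI ν T f) := stronglyMeasurable_condExp
  exact (h1.mono (MeasurableSpace.invariants_le T)).measurable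

lemma EI_inv (ν : Measure X) (T : X → X) (f : X → ℂ) (z : X) : EI ν T f (T z) = EI ν T f z := by
  have h1 : StronglyMeasurable[MeasurableSpace.invariants T] (EI ν T f) := stronglyMeasurable_condExp
  exact congrFun (MeasurableSpace.comp_eq_of_measurable_invariants h1.measurable) z

lemma EI_inv' (ν : Measure X) (T : X → X) (f : X → ℂ) (n : ℕ) (z : X) : EI ν T f (T^[n] z) = EI ν T f z := by
  induction n generalizing z with
  | zero => rfl
  | succ n ih => rw [Function.iterate_succ_apply, ih, EI_inv]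

/-- the truncated conditional expectation -/
noncomputable def ET (ν : Measure X) (T : X → X) (C : ℝ) (f : X → ℂ) (z : X) : ℂ :=
  if ‖EI ν T f z‖ ≤ C then EI ν T f z else 0

lemma ET_meas (ν : Measure X) (T : X → X) (C : ℝ) (f : X → ℂ) : Measurable (ET ν T C f) := by
  unfold ET
  exact Measurable.ite (measurableSet_le (EI_meas ν T f).norm measurable_const) (EI_meas ν T f) measurable_const

lemma ET_inv (ν : Measure X) (T : X → X) (C : ℝ) (f : X → ℂ) (n : ℕ) (z : X) : ET ν T C f (T^[n] z) = ET ν T C f z := by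
  unfold ET
  rw [EI_inv']

lemma ET_bound (ν : Measure X) (T : X → X) (C : ℝ) (hC : 0 ≤ C) (f : X → ℂ) (z : X) : ‖ET ν T C f z‖ ≤ C := by
  unfold ET
  split_ifs with h
  · exact h
  · rw [norm_zero]; exact hC

lemma bav_bound (T : X → X) (f : X → ℂ) (C : ℝ) (hC : 0 ≤ C) (hb : ∀ x, ‖f x‖ ≤ C) (n : ℕ) (x : X) :
    ‖(n : ℂ)⁻¹ * ∑ k ∈ Finset.range n, f (T^[k] x)‖ ≤ C := by
  rw [norm_mul, norm_inv, Complex.norm_natCast]
  have h1 : ‖∑ k ∈ Finset.range n, f (T^[k] x)‖ ≤ n * C := by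
    refine (norm_sum_le_of_le _ fun k _ => hb _).trans (le_of_eq ?_)
    rw [Finset.sum_const, Finset.card_range, nsmul_eq_mul]
  rcases Nat.eq_zero_or_pos n with h | h
  · subst h; simp [hC]
  · have h' : (0 : ℝ) < n := by exact_mod_cast h
    rw [inv_mul_le_iff₀ h']
    exact h1

lemma ET_eq {ν : Measure X} [IsProbabilityMeasure ν] {T : X → X} (hT : MeasurePreserving T ν ν) (f : X → ℂ)
    (hf : Measurable f) (C : ℝ) (hC : 0 ≤ C) (hb : ∀ x, ‖f x‖ ≤ C) : ∀ᵐ z ∂ν, ET ν T C f z = EI ν T f z := by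
  filter_upwards [birkhoffC hT f hf C hb] with z hz
  unfold ET
  rw [if_pos]
  exact le_of_tendsto hz.norm (Eventually.of_forall fun n => bav_bound T f C hC hb n z)

lemma small_all {ν : Measure X} [IsProbabilityMeasure ν] {T : X → X} (hT : MeasurePreserving T ν ν) (f : X → ℂ)
    (hf : Measurable f) (C : ℝ) (hC : 0 ≤ C) (hb : ∀ x, ‖f x‖ ≤ C) (a : ℕ) :
    ∀ᵐ z ∂ν, ∀ δ : ℝ, 0 < δ → ∃ ρ : ℕ, 0 < ρ ∧ ∀ᶠ N : ℕ in atTop, (N : ℝ)⁻¹ * ∑ n ∈ range N,
      ‖(ρ : ℂ)⁻¹ * ∑ k ∈ range ρ, f (T^[k] (T^[a * (n + 1)] z)) - ET ν T C f (T^[a * (n + 1)] z)‖ ≤ δ := by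
  set u : ℕ → X → ℝ := fun ρ z => ‖(ρ : ℂ)⁻¹ * ∑ k ∈ range ρ, f (T^[k] z) - ET ν T C f z‖ with hu
  have hum : ∀ ρ, Measurable (u ρ) := fun ρ =>
    ((measurable_const.mul (Finset.measurable_fun_sum _ fun k _ => hf.comp (hT.measurable.iterate k))).sub
      (ET_meas ν T C f)).norm
  have hub : ∀ ρ z, u ρ z ≤ C + C := fun ρ z =>
    (norm_sub_le _ _).trans (add_le_add (bav_bound T f C hC hb ρ z) (ET_bound ν T C hC f z))
  have hlim : Tendsto (fun ρ => ∫ z, u ρ z ∂ν) atTop (𝓝 0) := by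
    have h1 := tendsto_integral_of_dominated_convergence (μ := ν) (F := u) (f := fun _ => 0) (fun _ => C + C)
      (fun ρ => (hum ρ).aestronglyMeasurable) (integrable_const _)
      (fun ρ => Eventually.of_forall fun z => by
        rw [Real.norm_eq_abs, abs_of_nonneg (norm_nonneg _)]; exact hub ρ z)
      (by
        filter_upwards [birkhoffC hT f hf C hb, ET_eq hT f hf C hC hb] with z hz hz2
        have h2 := (hz.sub_const (ET ν T C f z)).norm
        rw [hz2, sub_self, norm_zero] at h2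
        simp only [hu]
        rw [hz2]
        exact h2)
    simpa using h1
  have key : ∀ k : ℕ, ∀ᵐ z ∂ν, ∃ ρ : ℕ, 0 < ρ ∧ ∀ᶠ N : ℕ in atTop, (N : ℝ)⁻¹ * ∑ n ∈ range N,
      u ρ (T^[a * (n + 1)] z) ≤ 1 / ((k : ℝ) + 1) := by
    intro k
    set δ : ℝ := 1 / ((k : ℝ) + 1) with hδ
    have hδ0 : 0 < δ := by positivity
    rw [ae_iff, ← nonpos_iff_eq_zero]
    have hlim2 : Tendsto (fun ρ => ENNReal.ofReal ((∫ z, u ρ z ∂ν) / δ)) atTop (𝓝 0) := by
      have := ENNReal.tendsto_ofReal (hlim.div_const δ)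
      simpa using this
    refine ge_of_tendsto hlim2 ?_
    filter_upwards [eventually_gt_atTop 0] with ρ hρ
    refine le_trans (measure_mono ?_) (avg_small ν hT a (u ρ) (hum ρ) (C + C) (fun z => norm_nonneg _) (hub ρ) δ hδ0)
    intro z hz hcon
    exact hz ⟨ρ, hρ, hcon⟩
  filter_upwards [ae_all_iff.2 key] with z hz δ hδ
  obtain ⟨k, hk⟩ := exists_nat_one_div_lt hδ
  obtain ⟨ρ, hρ, h⟩ := hz k
  exact ⟨ρ, hρ, h.mono fun N hN => hN.trans hk.le⟩

/-- the multiple averages -/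
noncomputable def mav (T : X → X) (m : ℕ) (a : ℕ → ℕ) (f : ℕ → X → ℂ) (N : ℕ) (z : X) : ℂ :=
  (N : ℂ)⁻¹ * ∑ n ∈ Finset.Icc 1 N, ∏ j ∈ range m, f j (T^[a j * n] z)

lemma sum_Icc_range {M : Type*} [AddCommMonoid M] (N : ℕ) (F : ℕ → M) :
    ∑ n ∈ Finset.Icc 1 N, F n = ∑ n ∈ range N, F (n + 1) := by
  have e0 : Finset.Icc 1 N = Finset.Ico 1 (N + 1) := by ext; simp
  rw [e0, Finset.sum_Ico_eq_sum_range]
  refine Finset.sum_congr (by simp) fun n _ => ?_
  rw [add_comm]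

/-- the reduction of the last function -/
lemma step_one {ν : Measure X} [IsProbabilityMeasure ν] {T : X → X} (hT : MeasurePreserving T ν ν) (m : ℕ)
    (a : ℕ → ℕ) (f : ℕ → X → ℂ) (hf : ∀ j, Measurable (f j)) (C : ℝ) (hC : 1 ≤ C) (hfC : ∀ j z, ‖f j z‖ ≤ C)
    (h : ∀ i : ℕ, ∀ᵐ z ∂ν, Tendsto (fun N : ℕ => (N : ℂ)⁻¹ * ∑ n ∈ Finset.Icc 1 N,
      (∏ j ∈ range m, f j (T^[a j * n] z)) * (f m (T^[a m * n + i + 1] z) - f m (T^[a m * n + i] z))) atTop (𝓝 0)) :
    ∀ᵐ z ∂ν, Tendsto (fun N : ℕ => mav T (m + 1) a f N z - ET ν T C (f m) z * mav T m a f N z) atTop (𝓝 0) := by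
  have hC0 : 0 ≤ C := by linarith
  filter_upwards [ae_all_iff.2 h, small_all hT (f m) (hf m) C hC0 (hfC m) (a m)] with z hz hsm
  set P : ℕ → ℂ := fun n => ∏ j ∈ range m, f j (T^[a j * n] z) with hP
  have hPb : ∀ n, ‖P n‖ ≤ C ^ m := by
    intro n
    simp only [hP]
    rw [norm_prod]
    calc ∏ j ∈ range m, ‖f j (T^[a j * n] z)‖ ≤ ∏ _j ∈ range m, C :=
          Finset.prod_le_prod (fun _ _ => norm_nonneg _) fun j _ => hfC j _
      _ = C ^ m := by rw [Finset.prod_const, Finset.card_range]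
  have hk : ∀ k : ℕ, Tendsto (fun N : ℕ => (N : ℂ)⁻¹ * ∑ n ∈ Finset.Icc 1 N,
      P n * (f m (T^[a m * n + k] z) - f m (T^[a m * n] z))) atTop (𝓝 0) := by
    intro k
    induction k with
    | zero => simp
    | succ k ih =>
      have h1 := ih.add (hz k)
      rw [add_zero] at h1
      refine h1.congr fun N => ?_
      rw [← mul_add, ← Finset.sum_add_distrib]
      congr 1
      refine Finset.sum_congr rfl fun n _ => ?_
      simp only [hP, add_assoc]
      ring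
  have hρ : ∀ ρ : ℕ, 0 < ρ → Tendsto (fun N : ℕ => (N : ℂ)⁻¹ * ∑ n ∈ Finset.Icc 1 N,
      P n * ((ρ : ℂ)⁻¹ * ∑ k ∈ range ρ, f m (T^[k] (T^[a m * n] z)) - f m (T^[a m * n] z))) atTop (𝓝 0) := by
    intro ρ hρ
    have hρ0 : (ρ : ℂ) ≠ 0 := by exact_mod_cast hρ.ne'
    have h1 : Tendsto (fun N : ℕ => (ρ : ℂ)⁻¹ * ∑ k ∈ range ρ, ((N : ℂ)⁻¹ * ∑ n ∈ Finset.Icc 1 N,
        P n * (f m (T^[a m * n + k] z) - f m (T^[a m * n] z)))) atTop (𝓝 0) := by
      have := (tendsto_finsetSum (range ρ) fun k _ => hk k).const_mul (ρ : ℂ)⁻¹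
      simpa using this
    refine h1.congr fun N => ?_
    rw [← Finset.mul_sum, Finset.sum_comm, mul_left_comm, Finset.mul_sum]
    congr 1
    refine Finset.sum_congr rfl fun n _ => ?_
    rw [← Finset.mul_sum, mul_left_comm, Finset.sum_sub_distrib, Finset.sum_const, Finset.card_range, nsmul_eq_mul,
      mul_sub, inv_mul_cancel_left₀ hρ0]
    congr 3
    refine Finset.sum_congr rfl fun k _ => ?_
    rw [← Function.iterate_add_apply, add_comm k]
  rw [Metric.tendsto_nhds]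
  intro ε hε
  obtain ⟨ρ, hρ1, hρ2⟩ := hsm (ε / (4 * C ^ m)) (by positivity)
  have h3 := (Metric.tendsto_nhds.1 (hρ ρ hρ1)) (ε / 2) (by positivity)
  filter_upwards [hρ2, h3] with N h1 h2
  rw [dist_zero_right] at h2 ⊢
  have e1 : mav T (m + 1) a f N z - ET ν T C (f m) z * mav T m a f N z =
      (N : ℂ)⁻¹ * ∑ n ∈ Finset.Icc 1 N, P n * (((ρ : ℂ)⁻¹ * ∑ k ∈ range ρ, f m (T^[k] (T^[a m * n] z))) -
        ET ν T C (f m) (T^[a m * n] z)) -
      (N : ℂ)⁻¹ * ∑ n ∈ Finset.Icc 1 N,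
        P n * ((ρ : ℂ)⁻¹ * ∑ k ∈ range ρ, f m (T^[k] (T^[a m * n] z)) - f m (T^[a m * n] z)) := by
    unfold mav
    rw [mul_left_comm, ← mul_sub, ← mul_sub, Finset.mul_sum, ← Finset.sum_sub_distrib, ← Finset.sum_sub_distrib]
    congr 1
    refine Finset.sum_congr rfl fun n _ => ?_
    rw [Finset.prod_range_succ, ET_inv]
    simp only [hP]
    ring
  rw [e1]
  have h4 : ‖(N : ℂ)⁻¹ * ∑ n ∈ Finset.Icc 1 N, P n * (((ρ : ℂ)⁻¹ * ∑ k ∈ range ρ, f m (T^[k] (T^[a m * n] z))) -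
        ET ν T C (f m) (T^[a m * n] z))‖ ≤ ε / 4 := by
    rw [norm_mul, norm_inv, Complex.norm_natCast]
    calc (N : ℝ)⁻¹ * ‖∑ n ∈ Finset.Icc 1 N, P n * (((ρ : ℂ)⁻¹ * ∑ k ∈ range ρ, f m (T^[k] (T^[a m * n] z))) -
        ET ν T C (f m) (T^[a m * n] z))‖
        ≤ (N : ℝ)⁻¹ * ∑ n ∈ Finset.Icc 1 N, C ^ m * ‖(((ρ : ℂ)⁻¹ * ∑ k ∈ range ρ, f m (T^[k] (T^[a m * n] z))) -
        ET ν T C (f m) (T^[a m * n] z))‖ := by
          gcongr
          refine norm_sum_le_of_le _ fun n _ => ?_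
          rw [norm_mul]
          gcongr
          exact hPb n
      _ = C ^ m * ((N : ℝ)⁻¹ * ∑ n ∈ range N, ‖(((ρ : ℂ)⁻¹ * ∑ k ∈ range ρ, f m (T^[k] (T^[a m * (n + 1)] z))) -
        ET ν T C (f m) (T^[a m * (n + 1)] z))‖) := by
          rw [← Finset.mul_sum, mul_left_comm, sum_Icc_range]
      _ ≤ C ^ m * (ε / (4 * C ^ m)) := by gcongr
      _ = ε / 4 := by field_simp
  calc _ ≤ _ := norm_sub_le _ _
    _ < ε / 4 + ε / 2 := add_lt_add_of_le_of_lt h4 h2
    _ < ε := by linarith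

/-- convergence of the multiple averages to the product of the conditional expectations -/
theorem step_all {ν : Measure X} [IsProbabilityMeasure ν] {T : X → X} (hT : MeasurePreserving T ν ν) (m : ℕ)
    (a : ℕ → ℕ) (f : ℕ → X → ℂ) (hf : ∀ j, Measurable (f j)) (C : ℝ) (hC : 1 ≤ C) (hfC : ∀ j z, ‖f j z‖ ≤ C)
    (h : ∀ r < m, ∀ i : ℕ, ∀ᵐ z ∂ν, Tendsto (fun N : ℕ => (N : ℂ)⁻¹ * ∑ n ∈ Finset.Icc 1 N,
      (∏ j ∈ range r, f j (T^[a j * n] z)) * (f r (T^[a r * n + i + 1] z) - f r (T^[a r * n + i] z))) atTop (𝓝 0)) :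
    ∀ᵐ z ∂ν, Tendsto (fun N : ℕ => mav T m a f N z) atTop (𝓝 (∏ j ∈ range m, EI ν T (f j) z)) := by
  induction m with
  | zero =>
    filter_upwards with z
    simp only [Finset.range_zero, Finset.prod_empty]
    refine tendsto_const_nhds.congr' ?_
    filter_upwards [eventually_gt_atTop 0] with N hN
    have hN0 : (N : ℂ) ≠ 0 := by exact_mod_cast hN.ne'
    unfold mav
    simp [hN0]
  | succ m ih =>
    filter_upwards [ih (fun r hr => h r (by omega)), step_one hT m a f hf C hC hfC (h m (by omega)),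
      ET_eq hT (f m) (hf m) C (by linarith) (hfC m)] with z h1 h2 h3
    have h4 := h2.add (h1.const_mul (ET ν T C (f m) z))
    rw [zero_add, h3, mul_comm, ← Finset.prod_range_succ] at h4
    refine h4.congr fun N => ?_
    ring

end Pool.Agent.R205.TC
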