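import Pool.Agent.R205.TC.B1
import Pool.Agent.R205.TC.A3

/-!
# Towers (time changes): the measure and the orbits
-/

set_option autoImplicit false

open MeasureTheory Filter Topology Set Finset
open scoped ENNReal ComplexConjugate

namespace Pool.Agent.R205.TC

variable {Y : Type*}

/-- the tower (time change) over `S` with heights `h` -/
def tow (S : Y → Y) (h : Y → ℕ) (z : Y × ℕ) : Y × ℕ := if z.2 + 1 < h z.1 then (z.1, z.2 + 1) else (S z.1, 0)

/-- the points of the tower -/
def pts (h : Y → ℕ) : Set (Y × ℕ) := {z | z.2 < h z.1}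

lemma tow_lev (S : Y → Y) (h : Y → ℕ) (y : Y) (l : ℕ) (hl : l < h y) : (tow S h)^[l] (y, 0) = (y, l) := by
  induction l with
  | zero => rfl
  | succ l ih =>
    rw [Function.iterate_succ_apply', ih (by omega)]
    unfold tow
    rw [if_pos hl]

lemma tow_pos (S : Y → Y) (h : Y → ℕ) (y : Y) (p : ℕ) : (tow S h)^[p] (y, 0) =
    (S^[(pos (fun s => h (S^[s] y)) p).1] y, (pos (fun s => h (S^[s] y)) p).2) := by
  induction p with
  | zero => rfl
  | succ p ih =>
    rw [Function.iterate_succ_apply', ih, pos_succ]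
    unfold tow
    simp only
    split_ifs
    · rfl
    · rw [← Function.iterate_succ_apply' S]

lemma tow_iter (S : Y → Y) (h : Y → ℕ) (y : Y) (l : ℕ) (hl : l < h y) (p : ℕ) : (tow S h)^[p] (y, l) =
    (S^[(pos (fun s => h (S^[s] y)) (p + l)).1] y, (pos (fun s => h (S^[s] y)) (p + l)).2) := by
  rw [← tow_pos, Function.iterate_add_apply, tow_lev S h y l hl]

lemma tow_bij (S : Y ≃ Y) (h : Y → ℕ) (h1 : ∀ y, 1 ≤ h y) : Set.BijOn (tow S h) (pts h) (pts h) := by
  refine ⟨?_, ?_, ?_⟩
  · rintro ⟨y, l⟩ _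
    change (tow S h (y, l)).2 < h (tow S h (y, l)).1
    unfold tow
    simp only
    split_ifs with h2
    · exact h2
    · exact h1 _
  · rintro ⟨y, l⟩ hz ⟨y', l'⟩ hz' he
    change l < h y at hz
    change l' < h y' at hz'
    unfold tow at he
    simp only at he
    split_ifs at he with h2 h3 h3
    · simp only [Prod.mk.injEq] at he ⊢
      exact ⟨he.1, by omega⟩
    · simp only [Prod.mk.injEq] at he
      omega
    · simp only [Prod.mk.injEq] at he
      omega
    · simp only [Prod.mk.injEq, EmbeddingLike.apply_eq_iff_eq] at he ⊢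
      obtain ⟨he, -⟩ := he
      subst he
      exact ⟨rfl, by omega⟩
  · rintro ⟨y, l⟩ hz
    change l < h y at hz
    rcases Nat.eq_zero_or_pos l with h0 | h0
    · refine ⟨(S.symm y, h (S.symm y) - 1), ?_, ?_⟩
      · change h (S.symm y) - 1 < h (S.symm y)
        have := h1 (S.symm y)
        omega
      · unfold tow
        simp only
        have := h1 (S.symm y)
        rw [if_neg (by omega), h0, Equiv.apply_symm_apply]
    · refine ⟨(y, l - 1), ?_, ?_⟩
      · change l - 1 < h y
        omega
      · unfold tow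
        simp only
        rw [if_pos (by omega)]
        congr 1
        omega

variable [MeasurableSpace Y]

lemma meas_pts {h : Y → ℕ} (hh : Measurable h) : MeasurableSet (pts h) := by
  unfold pts
  exact measurableSet_lt measurable_snd (hh.comp measurable_fst)

lemma meas_tow {S : Y → Y} (hS : Measurable S) {h : Y → ℕ} (hh : Measurable h) : Measurable (tow S h) := by
  unfold tow
  refine Measurable.ite (measurableSet_lt ?_ (hh.comp measurable_fst)) ?_ ?_
  · exact (measurable_snd.add_const 1)
  · exact measurable_fst.prodMk (measurable_snd.add_const 1)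
  · exact (hS.comp measurable_fst).prodMk measurable_const

/-- the normalized measure on the tower -/
noncomputable def tm (μ : Measure Y) (h : Y → ℕ) : Measure (Y × ℕ) :=
  ((μ.prod Measure.count) (pts h))⁻¹ • (μ.prod Measure.count).restrict (pts h)

lemma prod_count (μ : Measure Y) [SFinite μ] (s : Set (Y × ℕ)) (hs : MeasurableSet s) :
    (μ.prod Measure.count) s = ∑' l, μ {y | (y, l) ∈ s} := by
  rw [Measure.prod_apply_symm hs, lintegral_count]
  rfl

lemma mass_le (μ : Measure Y) [IsProbabilityMeasure μ] {h : Y → ℕ} (hh : Measurable h) (b : ℕ) (hb : ∀ y, h y ≤ b) :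
    (μ.prod Measure.count) (pts h) ≤ b := by
  rw [prod_count μ _ (meas_pts hh), tsum_eq_sum (s := range b)]
  · refine (Finset.sum_le_sum fun l _ => prob_le_one).trans ?_
    simp
  · intro l hl
    rw [Finset.mem_range, not_lt] at hl
    have : {y | (y, l) ∈ pts h} = ∅ := by
      ext y
      simp only [Set.mem_ofPred_eq, Set.mem_empty_iff_false, iff_false]
      intro hy
      change l < h y at hy
      have := hb y
      omega
    rw [this, measure_empty]

lemma one_le_mass (μ : Measure Y) [IsProbabilityMeasure μ] {h : Y → ℕ} (hh : Measurable h) (h1 : ∀ y, 1 ≤ h y) :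
    1 ≤ (μ.prod Measure.count) (pts h) := by
  rw [prod_count μ _ (meas_pts hh)]
  refine le_trans ?_ (ENNReal.le_tsum 0)
  have : {y | (y, 0) ∈ pts h} = Set.univ := by
    ext y
    simp only [Set.mem_ofPred_eq, Set.mem_univ, iff_true]
    exact h1 y
  rw [this, measure_univ]

lemma tm_prob (μ : Measure Y) [IsProbabilityMeasure μ] {h : Y → ℕ} (hh : Measurable h) (h1 : ∀ y, 1 ≤ h y) (b : ℕ)
    (hb : ∀ y, h y ≤ b) : IsProbabilityMeasure (tm μ h) := by
  refine ⟨?_⟩
  unfold tm
  rw [Measure.smul_apply, Measure.restrict_apply MeasurableSet.univ, Set.univ_inter, smul_eq_mul]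
  refine ENNReal.inv_mul_cancel ?_ ?_
  · have := one_le_mass μ hh h1
    intro h0
    rw [h0] at this
    simp at this
  · have := mass_le μ hh b hb
    exact (this.trans_lt (ENNReal.natCast_lt_top b)).ne

lemma tow_mp (μ : Measure Y) [IsProbabilityMeasure μ] {S : Y → Y} (hS : MeasurePreserving S μ μ) {h : Y → ℕ}
    (hh : Measurable h) (h1 : ∀ y, 1 ≤ h y) : MeasurePreserving (tow S h) (tm μ h) (tm μ h) := by
  have hTm := meas_tow hS.measurable hh
  refine ⟨hTm, ?_⟩
  unfold tm
  rw [Measure.map_smul]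
  congr 1
  ext A hA
  rw [Measure.map_apply hTm hA, Measure.restrict_apply (hTm hA), Measure.restrict_apply hA,
    prod_count μ _ ((hTm hA).inter (meas_pts hh)), prod_count μ _ (hA.inter (meas_pts hh))]
  have hsec : ∀ l, MeasurableSet {y | (y, l) ∈ A} := fun l => hA.preimage measurable_prodMk_right
  have hlt : ∀ l, MeasurableSet {y | l < h y} := fun l => measurableSet_lt measurable_const hh
  have heq : ∀ l, MeasurableSet {y | h y = l} := fun l => hh (measurableSet_singleton l)
  have e1 : ∀ l, μ {y | (y, l) ∈ tow S h ⁻¹' A ∩ pts h} =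
      μ {y | l + 1 < h y ∧ (y, l + 1) ∈ A} + μ {y | h y = l + 1 ∧ (S y, 0) ∈ A} := by
    intro l
    rw [← measure_union]
    · congr 1
      ext y
      simp only [Set.mem_ofPred_eq, Set.mem_inter_iff, Set.mem_preimage, Set.mem_union]
      unfold tow pts
      simp only [Set.mem_ofPred_eq]
      by_cases h2 : l + 1 < h y
      · rw [if_pos h2]
        constructor
        · rintro ⟨h3, h4⟩
          exact Or.inl ⟨h2, h3⟩
        · rintro (⟨_, h3⟩ | ⟨h3, _⟩)
          · exact ⟨h3, by omega⟩
          · omega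
      · rw [if_neg h2]
        constructor
        · rintro ⟨h3, h4⟩
          exact Or.inr ⟨by omega, h3⟩
        · rintro (⟨h3, _⟩ | ⟨h3, h4⟩)
          · omega
          · exact ⟨h4, by omega⟩
    · rw [Set.disjoint_left]
      rintro y ⟨h2, _⟩ ⟨h3, _⟩
      omega
    · refine (heq (l + 1)).inter ?_
      exact hS.measurable (hsec 0)
  have e2 : ∀ l, μ {y | (y, l) ∈ A ∩ pts h} = μ {y | l < h y ∧ (y, l) ∈ A} := by
    intro l
    congr 1
    ext y
    simp only [Set.mem_ofPred_eq, Set.mem_inter_iff, pts]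
    tauto
  simp only [e1, e2]
  rw [ENNReal.tsum_add, tsum_eq_zero_add' ENNReal.summable (f := fun l => μ {y | l < h y ∧ (y, l) ∈ A}), add_comm]
  congr 1
  rw [← measure_iUnion]
  · have e3 : (⋃ l, {y | h y = l + 1 ∧ (S y, 0) ∈ A}) = S ⁻¹' {y | (y, 0) ∈ A} := by
      ext y
      simp only [Set.mem_iUnion, Set.mem_ofPred_eq, Set.mem_preimage]
      constructor
      · rintro ⟨l, _, h3⟩
        exact h3
      · intro h3
        exact ⟨h y - 1, by have := h1 y; omega, h3⟩
    rw [e3, hS.measure_preimage (hsec 0).nullMeasurableSet]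
    congr 1
    ext y
    simp only [Set.mem_ofPred_eq]
    constructor
    · intro h3
      exact ⟨h1 y, h3⟩
    · rintro ⟨_, h3⟩
      exact h3
  · intro i j hij
    rw [Function.onFun, Set.disjoint_left]
    rintro y ⟨h2, _⟩ ⟨h3, _⟩
    omega
  · intro l
    exact (heq (l + 1)).inter (hS.measurable (hsec 0))

lemma ae_tm (μ : Measure Y) [IsProbabilityMeasure μ] {h : Y → ℕ} (hh : Measurable h) {P : Y × ℕ → Prop}
    (hP : ∀ᵐ y ∂μ, ∀ l, l < h y → P (y, l)) : ∀ᵐ z ∂(tm μ h), P z := by
  unfold tm
  refine Measure.ae_smul_measure ?_ _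
  rw [ae_restrict_iff' (meas_pts hh)]
  have h1 : ∀ᵐ z ∂(μ.prod (Measure.count : Measure ℕ)), ∀ l, l < h z.1 → P (z.1, l) :=
    Measure.quasiMeasurePreserving_fst.ae hP
  filter_upwards [h1] with z hz hmem
  exact hz z.2 hmem

end Pool.Agent.R205.TC
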