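import Pool.Agent.R205.TC.B2

/-!
# The shift property for almost every time change
-/

set_option autoImplicit false

open MeasureTheory Filter Topology Set Finset
open scoped ENNReal ComplexConjugate

namespace Pool.Agent.R205.TC

open Pool.Agent.R205.PC (Fresh Lk)

variable {Y : Type*} [MeasurableSpace Y]

/-- random heights -/
def rh (h₀ ξ : Y → ℕ) (θ : ℕ → Bool) (y : Y) : ℕ := h₀ y + (θ (ξ y)).toNat

lemma meas_rh {h₀ ξ : Y → ℕ} (hh : Measurable h₀) (hξ : Measurable ξ) (θ : ℕ → Bool) : Measurable (rh h₀ ξ θ) := by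
  unfold rh
  have h1 : Measurable (fun k : ℕ => (θ k).toNat) := Measurable.of_discrete
  exact hh.add (h1.comp hξ)

lemma meas_rh2 {h₀ ξ : Y → ℕ} (hh : Measurable h₀) (hξ : Measurable ξ) :
    Measurable (fun w : (ℕ → Bool) × (Y × ℕ) => rh h₀ ξ w.1 w.2.1) := by
  unfold rh
  refine (hh.comp (measurable_fst.comp measurable_snd)).add ?_
  have h1 : Measurable (fun w : (ℕ → Bool) × ℕ => (w.1 w.2).toNat) := by
    refine measurable_from_prod_countable_left fun k => ?_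
    have h3 : Measurable (fun b : Bool => b.toNat) := Measurable.of_discrete
    exact h3.comp (measurable_pi_apply _)
  exact h1.comp (measurable_fst.prodMk (hξ.comp (measurable_fst.comp measurable_snd)))

lemma meas_tow2 {S : Y → Y} (hS : Measurable S) {h₀ ξ : Y → ℕ} (hh : Measurable h₀) (hξ : Measurable ξ) :
    Measurable (fun w : (ℕ → Bool) × (Y × ℕ) => tow S (rh h₀ ξ w.1) w.2) := by
  unfold tow
  refine Measurable.ite (measurableSet_lt ?_ (meas_rh2 hh hξ)) ?_ ?_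
  · exact ((measurable_snd.comp measurable_snd).add_const 1)
  · exact (measurable_fst.comp measurable_snd).prodMk ((measurable_snd.comp measurable_snd).add_const 1)
  · exact (hS.comp (measurable_fst.comp measurable_snd)).prodMk measurable_const

lemma meas_tow_iter {S : Y → Y} (hS : Measurable S) {h₀ ξ : Y → ℕ} (hh : Measurable h₀) (hξ : Measurable ξ) (p : ℕ) :
    Measurable (fun w : (ℕ → Bool) × Y => (tow S (rh h₀ ξ w.1))^[p] (w.2, 0)) := by
  induction p with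
  | zero => exact measurable_snd.prodMk measurable_const
  | succ p ih =>
    simp only [Function.iterate_succ_apply']
    exact (meas_tow2 hS hh hξ).comp (measurable_fst.prodMk ih)

/-- the averages in the shift property -/
noncomputable def sav {X : Type*} (T : X → X) (r : ℕ) (a : ℕ → ℕ) (f : ℕ → X → ℂ) (c i : ℕ) (N : ℕ) (z : X) : ℂ :=
  (N : ℂ)⁻¹ * ∑ n ∈ Finset.Icc 1 N, (∏ j ∈ range r, f j (T^[a j * n + c] z)) *
    (f r (T^[a r * n + c + i + 1] z) - f r (T^[a r * n + c + i] z))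

theorem star_point (S : Y → Y) (ξ h₀ : Y → ℕ) (H : ℕ) (hh1 : ∀ y, 1 ≤ h₀ y) (hhH : ∀ y, h₀ y ≤ H)
    (r : ℕ) (a : ℕ → ℕ) (ha0 : 1 ≤ a r) (ha : ∀ j < r, a j + 1 ≤ a r) (f : ℕ → Y × ℕ → ℂ) (C : ℝ) (hC : 1 ≤ C)
    (hf : ∀ j z, ‖f j z‖ ≤ C) (c i : ℕ) (y : Y) (hy : Fresh S ξ y) :
    ∀ᵐ θ ∂CP, Tendsto (fun N : ℕ => sav (tow S (rh h₀ ξ θ)) r a f c i N (y, 0)) atTop (𝓝 0) := by
  have h1 := star S ξ y hy (fun s => h₀ (S^[s] y)) (H + 1) (fun s => hh1 _) (fun s => by have := hhH (S^[s] y); omega)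
    r a ha0 ha c i (fun _ => 1) (fun j q => f j (S^[q.1] y, q.2)) C hC (fun n => by simpa using hC) (fun j z => hf j _)
  filter_upwards [h1] with θ hθ
  refine hθ.congr fun N => ?_
  unfold sav
  congr 1
  refine Finset.sum_congr rfl fun n _ => ?_
  rw [one_mul]
  simp only [tow_pos]
  rfl

/-- the shift property, fixed functions -/
theorem star_ae (μ : Measure Y) [IsProbabilityMeasure μ] {S : Y → Y} (hS : Measurable S) {ξ h₀ : Y → ℕ}
    (hξ : Measurable ξ) (hh : Measurable h₀) (hfr : ∀ᵐ y ∂μ, Fresh S ξ y)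
    (H : ℕ) (hh1 : ∀ y, 1 ≤ h₀ y) (hhH : ∀ y, h₀ y ≤ H)
    (r : ℕ) (a : ℕ → ℕ) (ha0 : 1 ≤ a r) (ha : ∀ j < r, a j + 1 ≤ a r) (f : ℕ → Y × ℕ → ℂ)
    (hfm : ∀ j, Measurable (f j)) (C : ℝ) (hC : 1 ≤ C) (hf : ∀ j z, ‖f j z‖ ≤ C) (i : ℕ) :
    ∀ᵐ θ ∂CP, ∀ᵐ z ∂(tm μ (rh h₀ ξ θ)),
      Tendsto (fun N : ℕ => sav (tow S (rh h₀ ξ θ)) r a f 0 i N z) atTop (𝓝 0) := by
  have h1 : ∀ c : ℕ, ∀ᵐ θ ∂CP, ∀ᵐ y ∂μ,
      Tendsto (fun N : ℕ => sav (tow S (rh h₀ ξ θ)) r a f c i N (y, 0)) atTop (𝓝 0) := by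
    intro c
    have hset : MeasurableSet {w : (ℕ → Bool) × Y |
        Tendsto (fun N : ℕ => sav (tow S (rh h₀ ξ w.1)) r a f c i N (w.2, 0)) atTop (𝓝 0)} := by
      refine measurableSet_tendsto (𝓝 0) fun N => ?_
      unfold sav
      refine measurable_const.mul (Finset.measurable_fun_sum _ fun n _ => ?_)
      refine Measurable.mul (Finset.measurable_fun_prod _ fun j _ => ?_) (Measurable.sub ?_ ?_)
      · exact (hfm j).comp (meas_tow_iter hS hh hξ _)
      · exact (hfm r).comp (meas_tow_iter hS hh hξ _)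
      · exact (hfm r).comp (meas_tow_iter hS hh hξ _)
    rw [Measure.ae_ae_comm hset]
    filter_upwards [hfr] with y hy
    exact star_point S ξ h₀ H hh1 hhH r a ha0 ha f C hC hf c i y hy
  filter_upwards [ae_all_iff.2 h1] with θ hθ
  refine ae_tm μ (meas_rh hh hξ θ) ?_
  filter_upwards [ae_all_iff.2 hθ] with y hy l hl
  refine (hy l).congr fun N => ?_
  unfold sav
  congr 1
  refine Finset.sum_congr rfl fun n _ => ?_
  have e : ∀ p q, q = p + l → (tow S (rh h₀ ξ θ))^[q] (y, 0) = (tow S (rh h₀ ξ θ))^[p] (y, l) := by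
    intro p q hq
    rw [hq, Function.iterate_add_apply, tow_lev S _ y l hl]
  refine congrArg₂ (· * ·) (Finset.prod_congr rfl fun j _ => ?_) (congrArg₂ (· - ·) ?_ ?_)
  · rw [e (a j * n + 0) _ (by omega)]
  · rw [e (a r * n + 0 + i + 1) _ (by omega)]
  · rw [e (a r * n + 0 + i) _ (by omega)]

end Pool.Agent.R205.TC
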