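import Pool.Agent.R205.TC.B3
import Pool.Agent.R205.PC.Dens

/-!
# All bounded functions at once
-/

set_option autoImplicit false

open MeasureTheory Filter Topology Set Finset
open scoped ENNReal ComplexConjugate

namespace Pool.Agent.R205.TC

open Pool.Agent.R205.PC (Fresh Lk avg_small prod_sub_le ex fx dd dd_meas dd_bound dd_approx)
open MeasurableSpace

section Clos

variable {X : Type*} [MeasurableSpace X]

/-- averages of products with offsets -/
noncomputable def gav (T : X → X) (m : ℕ) (a d : ℕ → ℕ) (f : ℕ → X → ℂ) (N : ℕ) (z : X) : ℂ :=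
  (N : ℂ)⁻¹ * ∑ n ∈ Finset.Icc 1 N, ∏ j ∈ range m, f j (T^[a j * n + d j] z)

lemma avg_small' (ν : Measure X) [IsProbabilityMeasure ν] {T : X → X}
    (hT : MeasurePreserving T ν ν) (a d : ℕ) (u : X → ℝ) (hu : Measurable u) (B : ℝ) (h0 : ∀ z, 0 ≤ u z)
    (hB : ∀ z, u z ≤ B) (δ : ℝ) (hδ : 0 < δ) :
    ν {z | ¬ ∀ᶠ N : ℕ in atTop, (N : ℝ)⁻¹ * ∑ n ∈ range N, u (T^[a * (n + 1) + d] z) ≤ δ} ≤
      ENNReal.ofReal ((∫ z, u z ∂ν) / δ) := by
  have hTd : MeasurePreserving (T^[d]) ν ν := hT.iterate d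
  have h1 := avg_small ν hT a (fun z => u (T^[d] z)) (hu.comp hTd.measurable) B (fun z => h0 _) (fun z => hB _) δ hδ
  have h4 := integral_map (μ := ν) (φ := T^[d]) (f := u) hTd.measurable.aemeasurable hu.aestronglyMeasurable
  rw [hTd.map_eq] at h4
  rw [h4]
  refine le_trans (measure_mono ?_) h1
  intro z hz hcon
  apply hz
  refine hcon.mono fun N hN => ?_
  refine le_trans (le_of_eq ?_) hN
  congr 1
  refine Finset.sum_congr rfl fun n _ => ?_
  rw [← Function.iterate_add_apply, add_comm d]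

lemma gav_close (ν : Measure X) [IsProbabilityMeasure ν] {T : X → X} (hT : MeasurePreserving T ν ν) (m : ℕ)
    (a d : ℕ → ℕ) (f g : ℕ → X → ℂ) (hf : ∀ j, Measurable (f j)) (hg : ∀ j, Measurable (g j)) (C : ℝ) (hC : 1 ≤ C)
    (hfC : ∀ j z, ‖f j z‖ ≤ C) (hgC : ∀ j z, ‖g j z‖ ≤ C) (ε : ℝ) (hfg : ∀ j < m, ∫ z, ‖f j z - g j z‖ ∂ν ≤ ε)
    (δ : ℝ) (hδ : 0 < δ) :
    ν {z | ¬ ∀ᶠ N : ℕ in atTop, ‖gav T m a d f N z - gav T m a d g N z‖ ≤ C ^ m * (m * δ)} ≤
      m * ENNReal.ofReal (ε / δ) := by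
  have hC0 : 0 ≤ C := by linarith
  set U : ℕ → Set X := fun j =>
      {z | ¬ ∀ᶠ N : ℕ in atTop, (N : ℝ)⁻¹ * ∑ n ∈ range N, ‖f j (T^[a j * (n + 1) + d j] z) -
        g j (T^[a j * (n + 1) + d j] z)‖ ≤ δ} with hU
  have hsub : {z | ¬ ∀ᶠ N : ℕ in atTop, ‖gav T m a d f N z - gav T m a d g N z‖ ≤ C ^ m * (m * δ)} ⊆
      (⋃ j ∈ range m, U j : Set X) := by
    intro z hz
    by_contra hcon
    apply hz
    have hcon' : ∀ j < m, z ∉ U j := by
      intro j hj hmem
      exact hcon (Set.mem_biUnion (Finset.mem_coe.2 (Finset.mem_range.2 hj)) hmem)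
    have hev1 : ∀ᶠ N : ℕ in atTop, ∀ j ∈ range m, (N : ℝ)⁻¹ * ∑ n ∈ range N, ‖f j (T^[a j * (n + 1) + d j] z) -
        g j (T^[a j * (n + 1) + d j] z)‖ ≤ δ := by
      rw [Filter.eventually_all_finset]
      intro j hj
      by_contra hne
      exact (hcon' j (Finset.mem_range.1 hj)) hne
    filter_upwards [hev1] with N h1
    unfold gav
    rw [← mul_sub, ← Finset.sum_sub_distrib, norm_mul, norm_inv, Complex.norm_natCast]
    calc (N : ℝ)⁻¹ * ‖∑ n ∈ Finset.Icc 1 N, (∏ j ∈ range m, f j (T^[a j * n + d j] z) -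
            ∏ j ∈ range m, g j (T^[a j * n + d j] z))‖
        ≤ (N : ℝ)⁻¹ * ∑ n ∈ Finset.Icc 1 N, C ^ m * ∑ j ∈ range m, ‖f j (T^[a j * n + d j] z) -
            g j (T^[a j * n + d j] z)‖ := by
          gcongr
          exact norm_sum_le_of_le _ fun n _ => prod_sub_le C hC m _ _ (fun j => hfC j _) (fun j => hgC j _)
      _ = C ^ m * ∑ j ∈ range m, (N : ℝ)⁻¹ * ∑ n ∈ range N, ‖f j (T^[a j * (n + 1) + d j] z) -
            g j (T^[a j * (n + 1) + d j] z)‖ := by
          rw [← Finset.mul_sum, mul_left_comm, sum_Icc_range, Finset.sum_comm, Finset.mul_sum]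
      _ ≤ C ^ m * ∑ _j ∈ range m, δ := by
          gcongr with j hj
          exact h1 j hj
      _ = C ^ m * (m * δ) := by rw [Finset.sum_const, Finset.card_range, nsmul_eq_mul]
  refine (measure_mono hsub).trans ((measure_biUnion_finset_le (range m) _).trans ?_)
  have hUV : ∀ j ∈ range m, ν (U j) ≤ ENNReal.ofReal (ε / δ) := by
    intro j hj
    rw [Finset.mem_range] at hj
    have h1 := avg_small' ν hT (a j) (d j) (fun z => ‖f j z - g j z‖) ((hf j).sub (hg j)).norm (C + C)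
      (fun z => norm_nonneg _) (fun z => (norm_sub_le _ _).trans (add_le_add (hfC j z) (hgC j z))) δ hδ
    refine h1.trans (ENNReal.ofReal_le_ofReal ?_)
    have := hfg j hj
    gcongr
  refine (Finset.sum_le_sum hUV).trans (le_of_eq ?_)
  rw [Finset.sum_const, Finset.card_range, nsmul_eq_mul]

theorem clos_gav (ν : Measure X) [IsProbabilityMeasure ν] {T : X → X} (hT : MeasurePreserving T ν ν) (m : ℕ)
    (a d d' : ℕ → ℕ) (f : ℕ → X → ℂ) (hf : ∀ j, Measurable (f j)) (C : ℝ) (hC : 1 ≤ C)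
    (hfC : ∀ j z, ‖f j z‖ ≤ C)
    (h : ∀ ε : ℝ, 0 < ε → ∃ g : ℕ → X → ℂ, (∀ j, Measurable (g j)) ∧ (∀ j z, ‖g j z‖ ≤ C) ∧
      (∀ j < m, ∫ z, ‖f j z - g j z‖ ∂ν ≤ ε) ∧
      ∀ᵐ z ∂ν, Tendsto (fun N : ℕ => gav T m a d g N z - gav T m a d' g N z) atTop (𝓝 0)) :
    ∀ᵐ z ∂ν, Tendsto (fun N : ℕ => gav T m a d f N z - gav T m a d' f N z) atTop (𝓝 0) := by
  have hC0 : 0 ≤ C := by linarith
  have hbad : ∀ k : ℕ, ∀ᵐ z ∂ν, ∀ᶠ N : ℕ in atTop,
      ‖gav T m a d f N z - gav T m a d' f N z‖ ≤ 1 / ((k : ℝ) + 1) := by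
    intro k
    set δ : ℝ := 1 / ((k : ℝ) + 1) with hδ
    have hδ0 : 0 < δ := by positivity
    set δ' : ℝ := δ / (4 * C ^ m * (m + 1)) with hδ'
    have hδ'0 : 0 < δ' := by positivity
    rw [ae_iff, ← nonpos_iff_eq_zero]
    apply ENNReal.le_of_forall_pos_le_add
    intro η hη _
    rw [zero_add]
    have hη' : (0 : ℝ) < η := by exact_mod_cast hη
    set ε : ℝ := η * δ' / (2 * (m + 1)) with hε
    have hε0 : 0 < ε := by positivity
    obtain ⟨g, hgm, hgC, hfg, hg⟩ := h ε hε0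
    have h1 := gav_close ν hT m a d f g hf hgm C hC hfC hgC ε hfg δ' hδ'0
    have h2 := gav_close ν hT m a d' f g hf hgm C hC hfC hgC ε hfg δ' hδ'0
    have hsub : {z | ¬ ∀ᶠ N : ℕ in atTop, ‖gav T m a d f N z - gav T m a d' f N z‖ ≤ δ} ≤ᵐ[ν]
        ({z | ¬ ∀ᶠ N : ℕ in atTop, ‖gav T m a d f N z - gav T m a d g N z‖ ≤ C ^ m * (m * δ')} ∪
          {z | ¬ ∀ᶠ N : ℕ in atTop, ‖gav T m a d' f N z - gav T m a d' g N z‖ ≤ C ^ m * (m * δ')} : Set X) := by
      filter_upwards [hg] with z hz hbadz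
      by_contra hcon
      apply hbadz
      have hcon1 : ∀ᶠ N : ℕ in atTop, ‖gav T m a d f N z - gav T m a d g N z‖ ≤ C ^ m * (m * δ') := by
        by_contra hne
        exact hcon (Or.inl hne)
      have hcon2 : ∀ᶠ N : ℕ in atTop, ‖gav T m a d' f N z - gav T m a d' g N z‖ ≤ C ^ m * (m * δ') := by
        by_contra hne
        exact hcon (Or.inr hne)
      have hev3 : ∀ᶠ N : ℕ in atTop, ‖gav T m a d g N z - gav T m a d' g N z‖ ≤ δ / 2 := by
        have h5 := (tendsto_zero_iff_norm_tendsto_zero.1 hz)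
        exact (h5.eventually (eventually_le_nhds (show (0:ℝ) < δ / 2 by positivity)))
      filter_upwards [hcon1, hcon2, hev3] with N h1 h2 h3
      have hCm : 0 < C ^ m := by positivity
      have hfin : C ^ m * (m * δ') + C ^ m * (m * δ') ≤ δ / 2 := by
        have e2 : C ^ m * (m * δ') + C ^ m * (m * δ') = δ / 2 * (m / (m + 1)) := by
          rw [hδ']; field_simp; ring
        rw [e2]
        have e3 : (m : ℝ) / (m + 1) ≤ 1 := by rw [div_le_one (by positivity)]; linarith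
        have e4 : 0 ≤ δ / 2 := by positivity
        nlinarith
      have e5 : gav T m a d f N z - gav T m a d' f N z = (gav T m a d f N z - gav T m a d g N z) -
          (gav T m a d' f N z - gav T m a d' g N z) + (gav T m a d g N z - gav T m a d' g N z) := by ring
      rw [e5]
      refine (norm_add_le _ _).trans ?_
      have := norm_sub_le (gav T m a d f N z - gav T m a d g N z) (gav T m a d' f N z - gav T m a d' g N z)
      linarith
    refine (measure_mono_ae hsub).trans ((measure_union_le _ _).trans ((add_le_add h1 h2).trans ?_))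
    rw [← ENNReal.ofReal_natCast, ← ENNReal.ofReal_mul (by positivity), ← ENNReal.ofReal_add (by positivity) (by positivity)]
    rw [show (η : ℝ≥0∞) = ENNReal.ofReal (η : ℝ) by rw [ENNReal.ofReal_coe_nnreal]]
    apply ENNReal.ofReal_le_ofReal
    have e5 : (m : ℝ) * (ε / δ') + m * (ε / δ') = η * (m / (m + 1)) := by
      rw [hε]; field_simp; ring
    rw [e5]
    have e3 : (m : ℝ) / (m + 1) ≤ 1 := by rw [div_le_one (by positivity)]; linarith
    nlinarith
  filter_upwards [ae_all_iff.2 hbad] with z hz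
  rw [Metric.tendsto_nhds]
  intro ε hε
  obtain ⟨k, hk⟩ := exists_nat_one_div_lt hε
  filter_upwards [hz k] with N hN
  rw [dist_zero_right]
  exact hN.trans_lt hk

lemma sav_eq (T : X → X) (r : ℕ) (a : ℕ → ℕ) (f : ℕ → X → ℂ) (i N : ℕ) (z : X) :
    sav T r a f 0 i N z = gav T (r + 1) a (fun j => if j < r then 0 else i + 1) f N z -
      gav T (r + 1) a (fun j => if j < r then 0 else i) f N z := by
  unfold sav gav
  rw [← mul_sub, ← Finset.sum_sub_distrib]
  congr 1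
  refine Finset.sum_congr rfl fun n _ => ?_
  have e1 : ∀ q : ℕ, ∏ j ∈ range r, f j (T^[a j * n + (fun j => if j < r then 0 else q) j] z) =
      ∏ j ∈ range r, f j (T^[a j * n + 0] z) := fun q =>
    Finset.prod_congr rfl fun j hj => by simp only [if_pos (Finset.mem_range.1 hj)]
  rw [Finset.prod_range_succ, Finset.prod_range_succ, e1, e1]
  simp only [lt_irrefl, if_false]
  rw [mul_sub]
  simp only [add_zero, add_assoc]

end Clos

variable {Y : Type*} [MeasurableSpace Y]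

/-- the dominating measure -/
noncomputable def dm (μ : Measure Y) (b : ℕ) : Measure (Y × ℕ) := tm μ (fun _ => b)

lemma tm_le (μ : Measure Y) [IsProbabilityMeasure μ] {h : Y → ℕ} (hh : Measurable h) (h1 : ∀ y, 1 ≤ h y) (b : ℕ)
    (hb : ∀ y, h y ≤ b) (hb1 : 1 ≤ b) : tm μ h ≤ (b : ℝ≥0∞) • dm μ b := by
  have hm1 := one_le_mass μ hh h1
  have hm2 := mass_le μ (h := fun _ : Y => b) measurable_const b (fun _ => le_rfl)
  have hm3 := one_le_mass μ (h := fun _ : Y => b) measurable_const (fun _ => hb1)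
  have hsub : pts h ⊆ pts (fun _ : Y => b) := fun z hz => lt_of_lt_of_le hz (hb z.1)
  rw [Measure.le_iff]
  intro s hs
  unfold dm tm
  rw [Measure.smul_apply, Measure.smul_apply, Measure.smul_apply, smul_eq_mul, smul_eq_mul, smul_eq_mul]
  have h2 : ((μ.prod Measure.count).restrict (pts h)) s ≤ ((μ.prod Measure.count).restrict (pts fun _ : Y => b)) s :=
    Measure.restrict_mono hsub le_rfl s
  have h3 : ((μ.prod Measure.count) (pts h))⁻¹ ≤ 1 := ENNReal.inv_le_one.2 hm1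
  have h4 : 1 ≤ (b : ℝ≥0∞) * ((μ.prod Measure.count) (pts fun _ : Y => b))⁻¹ := by
    have h5 : (b : ℝ≥0∞)⁻¹ ≤ ((μ.prod Measure.count) (pts fun _ : Y => b))⁻¹ := ENNReal.inv_le_inv.2 hm2
    calc (1 : ℝ≥0∞) = (b : ℝ≥0∞) * (b : ℝ≥0∞)⁻¹ := by
          rw [ENNReal.mul_inv_cancel]
          · exact_mod_cast (by omega : b ≠ 0)
          · exact ENNReal.natCast_ne_top b
      _ ≤ _ := mul_le_mul_right h5 _
  calc ((μ.prod Measure.count) (pts h))⁻¹ * ((μ.prod Measure.count).restrict (pts h)) s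
      ≤ 1 * ((μ.prod Measure.count).restrict (pts fun _ : Y => b)) s := mul_le_mul' h3 h2
    _ ≤ ((b : ℝ≥0∞) * ((μ.prod Measure.count) (pts fun _ : Y => b))⁻¹) *
        ((μ.prod Measure.count).restrict (pts fun _ : Y => b)) s := mul_le_mul' h4 le_rfl
    _ = _ := by rw [mul_assoc]

lemma int_le (μ : Measure Y) [IsProbabilityMeasure μ] {h : Y → ℕ} (hh : Measurable h) (h1 : ∀ y, 1 ≤ h y) (b : ℕ)
    (hb : ∀ y, h y ≤ b) (hb1 : 1 ≤ b) (u : Y × ℕ → ℝ) (hu : Measurable u) (B : ℝ) (h0 : ∀ z, 0 ≤ u z)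
    (hB : ∀ z, u z ≤ B) : ∫ z, u z ∂(tm μ h) ≤ b * ∫ z, u z ∂(dm μ b) := by
  have hpr : IsProbabilityMeasure (dm μ b) := tm_prob μ measurable_const (fun _ => hb1) b (fun _ => le_rfl)
  have hi : Integrable u (dm μ b) := Integrable.of_bound hu.aestronglyMeasurable B
    (Eventually.of_forall fun z => by rw [Real.norm_eq_abs, abs_of_nonneg (h0 z)]; exact hB z)
  have h2 := integral_mono_measure (tm_le μ hh h1 b hb hb1) (Eventually.of_forall h0) (hi.smul_measure (ENNReal.natCast_ne_top b))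
  rw [integral_smul_measure] at h2
  simpa using h2

/-- For almost every time change all multiple averages converge. -/
theorem all_f [CountablyGenerated Y] (μ : Measure Y) [IsProbabilityMeasure μ] {S : Y → Y} (hS : MeasurePreserving S μ μ)
    {ξ h₀ : Y → ℕ} (hξ : Measurable ξ) (hh : Measurable h₀) (hfr : ∀ᵐ y ∂μ, Fresh S ξ y)
    (H : ℕ) (hh1 : ∀ y, 1 ≤ h₀ y) (hhH : ∀ y, h₀ y ≤ H) :
    ∀ᵐ θ ∂CP, ∀ (m : ℕ) (a : Fin m → ℕ), StrictMono a → (∀ j, 0 < a j) →
      ∀ f : Fin m → Y × ℕ → ℂ, (∀ j, Measurable (f j)) → (∃ C, ∀ j z, ‖f j z‖ ≤ C) →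
      ∀ᵐ z ∂(tm μ (rh h₀ ξ θ)), Tendsto (fun N : ℕ => mav (tow S (rh h₀ ξ θ)) m (ex a) (fx f) N z) atTop
        (𝓝 (∏ j ∈ range m, EI (tm μ (rh h₀ ξ θ)) (tow S (rh h₀ ξ θ)) (fx f j) z)) := by
  have hpr : IsProbabilityMeasure (dm μ (H + 1)) :=
    tm_prob μ measurable_const (fun _ => by omega) (H + 1) (fun _ => le_rfl)
  set νb : Measure (Y × ℕ) := dm μ (H + 1) with hνb
  have key : ∀ᵐ θ ∂CP, ∀ (m : ℕ) (a : Fin m → ℕ) (i : Fin m → ℕ) (M : ℕ) (r q : ℕ),
      StrictMono a → (∀ j, 0 < a j) → r < m →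
      ∀ᵐ z ∂(tm μ (rh h₀ ξ θ)), Tendsto (fun N : ℕ => sav (tow S (rh h₀ ξ θ)) r (ex a)
        (fun j => dd νb (ex i j) M) 0 q N z) atTop (𝓝 0) := by
    rw [ae_all_iff]; intro m
    rw [ae_all_iff]; intro a
    rw [ae_all_iff]; intro i
    rw [ae_all_iff]; intro M
    rw [ae_all_iff]; intro r
    rw [ae_all_iff]; intro q
    by_cases h : StrictMono a ∧ (∀ j, 0 < a j) ∧ r < m
    · obtain ⟨ha, ha0, hr⟩ := h
      have hr1 : 1 ≤ ex a r := by
        unfold ex
        rw [dif_pos hr]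
        exact ha0 _
      have hr2 : ∀ j < r, ex a j + 1 ≤ ex a r := by
        intro j hj
        unfold ex
        rw [dif_pos hr, dif_pos (hj.trans hr)]
        exact ha (show (⟨j, hj.trans hr⟩ : Fin m) < ⟨r, hr⟩ from hj)
      filter_upwards [star_ae μ hS.measurable hξ hh hfr H hh1 hhH r (ex a) hr1 hr2 (fun j => dd νb (ex i j) M)
        (fun j => dd_meas _ _ _) (M + 1) (by have : (0 : ℝ) ≤ M := Nat.cast_nonneg M; linarith)
        (fun j z => (dd_bound _ _ _ _).trans (by linarith)) q] with θ hθ _ _ _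
      exact hθ
    · filter_upwards with θ h1 h2 h3
      exact absurd ⟨h1, h2, h3⟩ h
  filter_upwards [key] with θ hθ m a ha ha0 f hf hfb
  obtain ⟨C0, hC0⟩ := hfb
  set hgt' := rh h₀ ξ θ with hhgt
  have hhm : Measurable hgt' := meas_rh hh hξ θ
  have hh1' : ∀ y, 1 ≤ hgt' y := fun y => by
    have := hh1 y
    simp only [hhgt, rh]
    omega
  have hhb' : ∀ y, hgt' y ≤ H + 1 := fun y => by
    have := hhH y
    have := Bool.toNat_le (θ (ξ y))
    simp only [hhgt, rh]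
    omega
  have hpr' : IsProbabilityMeasure (tm μ hgt') := tm_prob μ hhm hh1' (H + 1) hhb'
  have hTmp := tow_mp μ hS hhm hh1'
  set M : ℕ := ⌈max C0 0⌉₊ + 1 with hM
  have hCM : max C0 0 + 1 ≤ (M : ℝ) := by
    rw [hM]; push_cast
    have := Nat.le_ceil (max C0 0)
    linarith
  have hM1 : (1 : ℝ) ≤ M := by
    have : (0 : ℝ) ≤ max C0 0 := le_max_right _ _
    linarith
  have hfxm : ∀ j, Measurable (fx f j) := by
    intro j
    unfold fx
    split_ifs with h
    · exact hf _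
    · exact measurable_const
  have hfxb : ∀ j z, ‖fx f j z‖ ≤ max C0 0 := by
    intro j z
    unfold fx
    split_ifs with h
    · exact (hC0 _ z).trans (le_max_left _ _)
    · rw [norm_zero]; exact le_max_right _ _
  have hfxM : ∀ j z, ‖fx f j z‖ ≤ M := fun j z => (hfxb j z).trans (by linarith)
  refine step_all hTmp m (ex a) (fx f) hfxm M hM1 hfxM ?_
  intro r hr q
  have hcl := clos_gav (tm μ hgt') hTmp (r + 1) (ex a) (fun j => if j < r then 0 else q + 1)
    (fun j => if j < r then 0 else q) (fx f) hfxm M hM1 hfxM ?_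
  · filter_upwards [hcl] with z hz
    refine hz.congr fun N => ?_
    rw [← sav_eq]
    unfold sav
    simp only [add_zero]
  intro ε hε
  have happ : ∀ j : Fin m, ∃ i, ∫ z, ‖fx f j z - dd νb i M z‖ ∂νb ≤ ε / (H + 1) := fun j =>
    dd_approx νb (fx f j) (hfxm j) (max C0 0) (le_max_right _ _) (hfxb j) M hCM _ (by positivity)
  choose i hi using happ
  refine ⟨fun j => dd νb (ex i j) M, fun j => dd_meas _ _ _, fun j z => dd_bound _ _ _ _, ?_, ?_⟩
  · intro j hj
    have e1 : ex i j = i ⟨j, by omega⟩ := by rw [ex, dif_pos (show j < m by omega)]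
    have h3 := int_le μ hhm hh1' (H + 1) hhb' (by omega) (fun z => ‖fx f j z - dd νb (ex i j) M z‖)
      ((hfxm j).sub (dd_meas _ _ _)).norm (M + M) (fun z => norm_nonneg _)
      (fun z => (norm_sub_le _ _).trans (add_le_add (hfxM j z) (dd_bound _ _ _ _)))
    refine h3.trans ?_
    have h4 := hi ⟨j, by omega⟩
    rw [← e1] at h4
    push_cast
    calc ((H : ℝ) + 1) * ∫ z, ‖fx f j z - dd νb (ex i j) M z‖ ∂(dm μ (H + 1)) ≤ ((H : ℝ) + 1) * (ε / (H + 1)) := by
          gcongr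
      _ = ε := by field_simp
  · filter_upwards [hθ m a i M r q ha ha0 hr] with z hz
    refine hz.congr fun N => ?_
    rw [sav_eq]

end Pool.Agent.R205.TC
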